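import Pool.Agent.TH450.FG.E
import Pool.Agent.W277.UH.I1

/-!
# Conjugates over the field, and maps conjugate to constant maps (helper450)
-/

set_option autoImplicit false

namespace Pool.Agent.TH450.FH

open Pool.Agent.H951R3.PB Pool.Agent.TH450.PC Pool.Agent.TH450.FG Finset
open Pool.Agent.W277.UH hiding wd

universe u v

open MvPolynomial in
/-- the conjugate of a pair of forms over the field -/
theorem cjK {K : Type u} [Field K] {d : ℕ} (hd : 1 ≤ d) {f : Fin 2 → MvPolynomial (Fin 2) K}
    (hf : ∀ i, (f i).IsHomogeneous d) (h0 : rs f d ≠ 0) {a b : Fin 2 → K} (hab : wd a b ≠ 0) :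
    ∃ g : Fin 2 → MvPolynomial (Fin 2) K, (∀ i, (g i).IsHomogeneous d) ∧ rs g d ≠ 0 ∧
      ev g = cj a b (ev f) ∧ ev (fL K g) = cj (vL K a) (vL K b) (ev (fL K f)) := by
  classical
  set l : Fin 2 → MvPolynomial (Fin 2) K := fun j => X 0 * C (a j) + X 1 * C (b j) with hl
  set F : Fin 2 → MvPolynomial (Fin 2) K := fun i => aeval l (f i) with hF
  have hlhom : ∀ j, (l j).IsHomogeneous 1 := by
    intro j
    refine IsHomogeneous.add ?_ ?_
    · simpa using (isHomogeneous_X K (0 : Fin 2)).mul (isHomogeneous_C (Fin 2) (a j))
    · simpa using (isHomogeneous_X K (1 : Fin 2)).mul (isHomogeneous_C (Fin 2) (b j))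
  have hFhom : ∀ i, (F i).IsHomogeneous d := by
    intro i
    have := (hf i).aeval l hlhom
    rw [one_mul] at this
    exact this
  have hFev : ∀ i x, eval x (F i) = ev f (emb a b x) i := by
    intro i x
    have h1 : eval x (aeval l (f i)) = eval (fun j => eval x (l j)) (f i) := by
      have h := congrArg (fun φ : MvPolynomial (Fin 2) K →ₐ[K] K => φ (f i))
        (comp_aeval l (aeval x : MvPolynomial (Fin 2) K →ₐ[K] K))
      simpa [coe_aeval_eq_eval] using h
    have h2 : (fun j => eval x (l j)) = emb a b x := by
      funext j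
      simp [hl, emb]
    rw [hF]
    simp only
    rw [h1, h2]
    rfl
  have hFevL : ∀ i (x : Fin 2 → AlgebraicClosure K), eval x ((F i).map
      (algebraMap K (AlgebraicClosure K))) = ev (fL K f) (emb (vL K a) (vL K b) x) i := by
    intro i x
    have h1 : aeval x (aeval l (f i)) = aeval (fun j => aeval x (l j)) (f i) := by
      have h := congrArg (fun φ : MvPolynomial (Fin 2) K →ₐ[K] AlgebraicClosure K => φ (f i))
        (comp_aeval l (aeval x : MvPolynomial (Fin 2) K →ₐ[K] AlgebraicClosure K))
      simpa using h
    have h2 : (fun j => aeval x (l j)) = emb (vL K a) (vL K b) x := by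
      funext j
      simp [hl, emb, vL]
    rw [eval_map, ← aeval_def, hF]
    simp only
    rw [h1, h2]
    show _ = eval _ ((f i).map (algebraMap K (AlgebraicClosure K)))
    rw [eval_map, ← aeval_def]
  set g : Fin 2 → MvPolynomial (Fin 2) K :=
    ![C ((wd a b)⁻¹) * (F 0 * C (b 1) - F 1 * C (b 0)),
      C ((wd a b)⁻¹) * (C (a 0) * F 1 - C (a 1) * F 0)] with hg
  have hghom : ∀ i, (g i).IsHomogeneous d := by
    intro i
    have hs : ∀ (c : K) (p q : MvPolynomial (Fin 2) K), p.IsHomogeneous d → q.IsHomogeneous d →
        (C c * (p - q)).IsHomogeneous d := by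
      intro c p q hp hq
      have := (isHomogeneous_C (Fin 2) c).mul (hp.sub hq)
      simpa using this
    fin_cases i
    · refine hs _ _ _ ?_ ?_
      · simpa using (hFhom 0).mul (isHomogeneous_C (Fin 2) (b 1))
      · simpa using (hFhom 1).mul (isHomogeneous_C (Fin 2) (b 0))
    · refine hs _ _ _ ?_ ?_
      · simpa using (isHomogeneous_C (Fin 2) (a 0)).mul (hFhom 1)
      · simpa using (isHomogeneous_C (Fin 2) (a 1)).mul (hFhom 0)
  have hgev : ev g = cj a b (ev f) := by
    funext x i
    fin_cases i
    · simp [ev, hg, cj, coo, wd, hFev, div_eq_inv_mul]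
    · simp [ev, hg, cj, coo, wd, hFev, div_eq_inv_mul]
  have hgevL : ev (fL K g) = cj (vL K a) (vL K b) (ev (fL K f)) := by
    funext x i
    have hW : wd (vL K a) (vL K b) = algebraMap K (AlgebraicClosure K) (wd a b) := F4_wd a b
    fin_cases i
    · show eval x ((g 0).map (algebraMap K (AlgebraicClosure K))) =
        wd (ev (fL K f) (emb (vL K a) (vL K b) x)) (vL K b) / wd (vL K a) (vL K b)
      rw [hW]
      have e0 : (g 0).map (algebraMap K (AlgebraicClosure K)) =
          C (algebraMap K (AlgebraicClosure K) ((wd a b)⁻¹)) *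
            ((F 0).map (algebraMap K (AlgebraicClosure K)) *
              C (algebraMap K (AlgebraicClosure K) (b 1)) -
            (F 1).map (algebraMap K (AlgebraicClosure K)) *
              C (algebraMap K (AlgebraicClosure K) (b 0))) := by
        have e1 : g 0 = C ((wd a b)⁻¹) * (F 0 * C (b 1) - F 1 * C (b 0)) := rfl
        rw [e1]
        simp only [map_mul, map_sub, MvPolynomial.map_C]
      rw [e0]
      simp only [eval_mul, eval_sub, eval_C, hFevL]
      rw [map_inv₀ (algebraMap K (AlgebraicClosure K)), div_eq_inv_mul]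
      rfl
    · show eval x ((g 1).map (algebraMap K (AlgebraicClosure K))) =
        wd (vL K a) (ev (fL K f) (emb (vL K a) (vL K b) x)) / wd (vL K a) (vL K b)
      rw [hW]
      have e0 : (g 1).map (algebraMap K (AlgebraicClosure K)) =
          C (algebraMap K (AlgebraicClosure K) ((wd a b)⁻¹)) *
            (C (algebraMap K (AlgebraicClosure K) (a 0)) *
              (F 1).map (algebraMap K (AlgebraicClosure K)) -
            C (algebraMap K (AlgebraicClosure K) (a 1)) *
              (F 0).map (algebraMap K (AlgebraicClosure K))) := by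
        have e1 : g 1 = C ((wd a b)⁻¹) * (C (a 0) * F 1 - C (a 1) * F 0) := rfl
        rw [e1]
        simp only [map_mul, map_sub, MvPolynomial.map_C]
      rw [e0]
      simp only [eval_mul, eval_sub, eval_C, hFevL]
      rw [map_inv₀ (algebraMap K (AlgebraicClosure K)), div_eq_inv_mul]
      rfl
  refine ⟨g, hghom, ?_, hgev, hgevL⟩
  have hab' : wd (vL K a) (vL K b) ≠ 0 := by
    rw [F4_wd]
    simpa using hab
  obtain ⟨g₂, hg₂, hev₂, hrs₂⟩ := poly_cj hd (fun i => (hf i).map _) (F4_rs_ne h0) hab'
  have h1 : rs (fL K g) d ≠ 0 := by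
    refine (rs_ne_zero_iff hd (f := fL K g) fun i => (hghom i).map _).2 ?_
    intro x hx
    have hx' : ev g₂ x = 0 := by
      rw [hev₂]
      rw [hgevL] at hx
      exact hx
    exact (rs_ne_zero_iff hd hg₂).1 hrs₂ x hx'
  rw [F4_rs] at h1
  intro h
  rw [h, map_zero] at h1
  exact h1 rfl

/-- a map conjugate over `K` to a map with constant coefficients -/
theorem iso_of_conjConst {k : Type v} {K : Type u} [Field k] [Infinite k] [Field K] [Algebra k K]
    {d : ℕ} (hd : 1 ≤ d) {f : Fin 2 → MvPolynomial (Fin 2) K} (hf : ∀ i, (f i).IsHomogeneous d)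
    (h0 : rs f d ≠ 0) (h : ConjConst k (dh (f 0)) (dh (f 1)) d) :
    ∃ (A : Matrix (Fin 2) (Fin 2) (AlgebraicClosure K)) (g : Fin 2 → MvPolynomial (Fin 2) k)
      (c : AlgebraicClosure K), A.det ≠ 0 ∧ (∀ i, (g i).IsHomogeneous d) ∧ c ≠ 0 ∧
      ∀ v : Fin 2 → AlgebraicClosure K, ev (fL K f) (A.mulVec v) =
        c • A.mulVec (ev (fun i => (g i).map (algebraMap k (AlgebraicClosure K))) v) := by
  classical
  obtain ⟨a, b, c, e, hΔ, u, w, huw, hud, hwd', hid⟩ := h
  set a1 : Fin 2 → K := ![e, -c] with ha1
  set b1 : Fin 2 → K := ![-b, a] with hb1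
  have hab : wd a1 b1 = a * e - b * c := by
    simp [wd, ha1, hb1]
    ring
  have hab0 : wd a1 b1 ≠ 0 := by
    rw [hab]
    exact hΔ
  -- the good parameters
  have hfin : {t : k | -c * algebraMap k K t + a = 0 ∨ (u.eval t = 0 ∧ w.eval t = 0)}.Finite := by
    have h1 : {t : k | -c * algebraMap k K t + a = 0}.Finite := by
      by_cases hc : c = 0
      · have ha : a ≠ 0 := by
          rintro rfl
          apply hΔ
          rw [hc]
          ring
        convert Set.finite_empty
        ext t
        simp [hc, ha]
      · apply Set.Subsingleton.finite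
        intro t ht t' ht'
        have h2 : -c * algebraMap k K t + a = 0 := ht
        have h3 : -c * algebraMap k K t' + a = 0 := ht'
        apply (algebraMap k K).injective
        apply mul_left_cancel₀ hc
        linear_combination h3 - h2
    have h2 : {t : k | u.eval t = 0 ∧ w.eval t = 0}.Finite := by
      rcases huw with h | h
      · refine (Polynomial.finite_setOf_isRoot h).subset ?_
        intro t ht
        exact ht.1
      · refine (Polynomial.finite_setOf_isRoot h).subset ?_
        intro t ht
        exact ht.2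
    exact h1.union h2
  obtain ⟨U, hUs, hUc⟩ := (hfin.infinite_compl).exists_subset_card_eq (2 * d + 1)
  obtain ⟨g, hg, hgrs, hgev, hgevL⟩ := cjK hd hf h0 hab0
  obtain ⟨g', s, hs, hg', hmap⟩ := rigid (E := k) (L := AlgebraicClosure K) hd
    (g := fL K g) (fun i => (hg i).map _) (F4_rs_ne hgrs) U (by omega) (by
      intro t ht
      have ht' := hUs (Finset.mem_coe.2 ht)
      rw [Set.mem_compl_iff, Set.mem_setOf_eq, not_or] at ht'
      obtain ⟨ht1, ht2⟩ := ht'
      set T : K := algebraMap k K t with hT
      set y : Fin 2 → K := emb a1 b1 ![T, 1] with hy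
      have hy0 : y 0 = e * T - b := by
        simp [hy, emb, ha1, hb1]
        ring
      have hy1 : y 1 = -c * T + a := by
        simp [hy, emb, ha1, hb1]
        ring
      have hy1' : y 1 ≠ 0 := by
        rw [hy1]
        exact ht1
      set z : K := y 0 / y 1 with hz
      have hf0 : ev f y 0 = (dh (f 0)).eval z * y 1 ^ d := E1.eval_of_ne (hf 0) y hy1'
      have hf1 : ev f y 1 = (dh (f 1)).eval z * y 1 ^ d := E1.eval_of_ne (hf 1) y hy1'
      have e1 : a * z + b = (a * e - b * c) * T / y 1 := by
        rw [hz, eq_div_iff hy1', add_mul, mul_assoc, div_mul_cancel₀ _ hy1', hy0, hy1]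
        ring
      have e2 : c * z + e = (a * e - b * c) / y 1 := by
        rw [hz, eq_div_iff hy1', add_mul, mul_assoc, div_mul_cancel₀ _ hy1', hy0, hy1]
        ring
      have hhc : ∀ r : Polynomial k, r.natDegree ≤ d →
          (hc d (r.map (algebraMap k K)) (Polynomial.C a * Polynomial.X + Polynomial.C b)
            (Polynomial.C c * Polynomial.X + Polynomial.C e)).eval z =
          ((a * e - b * c) / y 1) ^ d * algebraMap k K (r.eval t) := by
        intro r hr
        rw [hc_eval]
        simp only [Polynomial.eval_add, Polynomial.eval_mul, Polynomial.eval_C, Polynomial.eval_X]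
        rw [e1, e2, Polynomial.eval_eq_sum_range' (n := d + 1) (by omega), map_sum,
          Finset.mul_sum]
        refine Finset.sum_congr rfl fun i hi => ?_
        rw [Finset.mem_range] at hi
        have h3 : ((a * e - b * c) / y 1) ^ d = ((a * e - b * c) / y 1) ^ i *
            ((a * e - b * c) / y 1) ^ (d - i) := by
          rw [← pow_add]
          congr 1
          omega
        have h4 : (a * e - b * c) * T / y 1 = ((a * e - b * c) / y 1) * T := by ring
        rw [h3, h4, mul_pow, map_mul, map_pow, Polynomial.coeff_map, ← hT]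
        ring
      have hidz := congrArg (Polynomial.eval z) hid
      rw [Polynomial.eval_mul, Polynomial.eval_mul, hhc w hwd', hhc u hud] at hidz
      simp only [Polynomial.eval_add, Polynomial.eval_mul, Polynomial.eval_C] at hidz
      have hΔy : ((a * e - b * c) / y 1) ^ d ≠ 0 := pow_ne_zero _ (div_ne_zero hΔ hy1')
      have key : (a * (dh (f 0)).eval z + b * (dh (f 1)).eval z) * algebraMap k K (w.eval t) =
          (c * (dh (f 0)).eval z + e * (dh (f 1)).eval z) * algebraMap k K (u.eval t) := by
        apply mul_left_cancel₀ hΔy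
        linear_combination hidz
      -- the coordinates of the image
      set Y := ev f y with hY
      have hc0 : coo a1 b1 Y 0 = (a * Y 0 + b * Y 1) / (a * e - b * c) := by
        show wd Y b1 / wd a1 b1 = _
        rw [hab]
        congr 1
        simp [wd, hb1]
        ring
      have hc1 : coo a1 b1 Y 1 = (c * Y 0 + e * Y 1) / (a * e - b * c) := by
        show wd a1 Y / wd a1 b1 = _
        rw [hab]
        congr 1
        simp [wd, ha1]
        ring
      have hpar : wd (coo a1 b1 Y) (fun i => algebraMap k K ((![u.eval t, w.eval t] : Fin 2 → k) i)) = 0 := by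
        show coo a1 b1 Y 0 * algebraMap k K (w.eval t) -
          coo a1 b1 Y 1 * algebraMap k K (u.eval t) = 0
        rw [hc0, hc1, hf0, hf1]
        field_simp
        linear_combination (y 1 ^ d) * key
      have hne : (fun i => algebraMap k K ((![u.eval t, w.eval t] : Fin 2 → k) i)) ≠ 0 := by
        intro h
        apply ht2
        constructor
        · have := congrFun h 0
          simpa using this
        · have := congrFun h 1
          simpa using this
      obtain ⟨s, hs⟩ := B1_parallel hne hpar
      refine ⟨![u.eval t, w.eval t], algebraMap K (AlgebraicClosure K) s, ?_⟩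
      have h1 : (fun i => algebraMap k (AlgebraicClosure K) ((![t, 1] : Fin 2 → k) i)) =
          vL K ![T, 1] := by
        funext i
        fin_cases i
        · simp [vL, hT, IsScalarTower.algebraMap_apply k K (AlgebraicClosure K)]
        · simp [vL]
      rw [h1, F4_ev, hgev]
      have h2 : cj a1 b1 (ev f) ![T, 1] = coo a1 b1 Y := rfl
      rw [h2, hs]
      funext i
      simp only [vL, Pi.smul_apply, smul_eq_mul, map_mul,
        IsScalarTower.algebraMap_apply k K (AlgebraicClosure K)])
  set a' := vL K a1 with ha'
  set b' := vL K b1 with hb'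
  have hab' : wd a' b' ≠ 0 := by
    rw [ha', hb', F4_wd]
    simpa using hab0
  refine ⟨Matrix.of fun i j => if j = 0 then a' i else b' i, g', s⁻¹, ?_, hg', inv_ne_zero hs, ?_⟩
  · rw [Matrix.det_fin_two]
    simp only [Matrix.of_apply, if_true, one_ne_zero, if_false]
    intro h
    apply hab'
    simp only [wd]
    linear_combination h
  · intro v
    have hemb : ∀ z : Fin 2 → AlgebraicClosure K,
        (Matrix.of fun i j => if j = 0 then a' i else b' i : Matrix (Fin 2) (Fin 2) _).mulVec z =
          emb a' b' z := by
      intro z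
      funext i
      simp only [emb, Matrix.mulVec, dotProduct, Fin.sum_univ_two, Matrix.of_apply, if_true,
        one_ne_zero, if_false, Pi.add_apply, Pi.smul_apply, smul_eq_mul]
      ring
    rw [hemb, hemb]
    have h1 : ev (fun i => (g' i).map (algebraMap k (AlgebraicClosure K))) v =
        s • ev (fL K g) v := by
      funext i
      simp only [ev, hmap i, Pi.smul_apply, smul_eq_mul, map_mul, MvPolynomial.eval_C]
    rw [h1, hgevL]
    have h2 : emb a' b' (s • cj a' b' (ev (fL K f)) v) =
        s • emb a' b' (cj a' b' (ev (fL K f)) v) := by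
      funext i
      simp only [emb, Pi.add_apply, Pi.smul_apply, smul_eq_mul]
      ring
    rw [h2, smul_smul, inv_mul_cancel₀ hs, one_smul, cj, D2.emb_coo hab']

end Pool.Agent.TH450.FH
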