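import Pool.Agent.W277.UH.G1
import Pool.Agent.W277.UH.H9

/-!
# The places of positive size of a map with many preperiodic points (after W277.UH.G2)
-/

namespace Pool.Agent.TH450.FH

open Pool.Agent.W277.UB Pool.Agent.W277.UG Pool.Agent.W277.UH Finset Polynomial

universe u v w

/-- **The bad places.** -/
theorem bad_set (d : ℕ) (hd : 2 ≤ d) : ∃ N₁ : ℕ,
    ∀ (k : Type v) (K : Type u) [Field k] [CharZero k] [Field K] [Algebra k K] [DecidableEq K]
    (Q : PlaceData.{w} k K) (p q : Polynomial K), p.natDegree ≤ d → q.natDegree = d → IsCoprime p q →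
    ∀ P : Finset K, (∀ z ∈ P, q.eval z ≠ 0 ∧ p.eval z / q.eval z ∈ P) →
    ¬ ConjConst k p q d → N₁ ≤ P.card →
    ∀ A : Q.Pl → K → ℝ, (∀ v, ∀ z ∈ P, (d : ℝ) * A v z =
      Q.ord v (q.eval z) + A v (p.eval z / q.eval z)) →
    (∃ Bd : Finset Q.Pl, Bd.card ≤ 48 * d * (d + 1) * Q.lossT.toNat ∧
      ∀ v, v ∉ Bd → ∀ x ∈ P, ∀ y ∈ P, x ≠ y →
        0 ≤ GG Q v (A v) ((Q.ord v (resultant q p d d) : ℝ) / (d * ((d : ℝ) - 1))) x y) ∧
    ∃ v, ∃ x ∈ P, ∃ y ∈ P, x ≠ y ∧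
        GG Q v (A v) ((Q.ord v (resultant q p d d) : ℝ) / (d * ((d : ℝ) - 1))) x y ≠ 0 := by
  classical
  obtain ⟨N₀, M, hglob⟩ := global_boundU.{u, v, w} d hd
  refine ⟨N₀ + 4 * ((M + 3) * (d + 1)) + (3 * d + 4) + q₀ d, ?_⟩
  intro k K _ _ _ _ _ Q p q hp hq hco P hP hiso hN A hA
  have hdR : (2 : ℝ) ≤ d := by exact_mod_cast hd
  have hqP : q₀ d < P.card := by omega
  have hres := res_ne d p q hp hq (by omega) hco
  set r := resultant q p d d with hr
  set fz : K → K := fun z => p.eval z / q.eval z with hfz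
  have hf : ∀ z ∈ P, fz z ∈ P := fun z hz => (hP z hz).2
  set E : Finset K := insert r (P.image q.eval ∪ P.offDiag.image fun w => w.1 - w.2) with hE
  set S : Finset Q.Pl := Q.lossS ∪ E.biUnion (fun x => if h : x ≠ 0 then (Q.fin x h).toFinset
    else ∅) with hS
  have hSE : ∀ v, v ∉ S → ∀ x ∈ E, x ≠ 0 → Q.ord v x = 0 := by
    intro v hv x hx hx0
    by_contra h
    apply hv
    rw [hS, Finset.mem_union]
    right
    rw [Finset.mem_biUnion]
    refine ⟨x, hx, ?_⟩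
    rw [dif_pos hx0, Set.Finite.mem_toFinset]
    exact h
  have hrE : r ∈ E := Finset.mem_insert_self _ _
  have hqE : ∀ z ∈ P, q.eval z ∈ E := fun z hz => Finset.mem_insert_of_mem
    (Finset.mem_union_left _ (Finset.mem_image_of_mem _ hz))
  have hxE : ∀ x ∈ P, ∀ y ∈ P, x ≠ y → x - y ∈ E := fun x hx y hy hxy =>
    Finset.mem_insert_of_mem (Finset.mem_union_right _ (Finset.mem_image.mpr
      ⟨(x, y), Finset.mem_offDiag.mpr ⟨hx, hy, hxy⟩, rfl⟩))
  choose a ha using fun v => exists_a d hd P fz hf (fun z => (Q.ord v (q.eval z) : ℝ))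
  set ρ : Q.Pl → ℝ := fun v => (Q.ord v r : ℝ) / (d * ((d : ℝ) - 1)) with hρ
  have hL : ∀ v, Nonempty (LD Q v d P (a v) (ρ v)) := fun v =>
    local_all' Q v d hd p q hp hq hco P hP (a v) (ha v) (ρ v) hres rfl
  let L : ∀ v, LD Q v d P (a v) (ρ v) := fun v => Classical.choice (hL v)
  have hS1 : ∀ v, v ∉ S → ∀ x ∈ P, ∀ y ∈ P, x ≠ y → Q.ord v (x - y) = 0 :=
    fun v hv x hx y hy hxy => hSE v hv _ (hxE x hx y hy hxy) (sub_ne_zero.mpr hxy)
  have hS2 : ∀ v, v ∉ S → (∀ x ∈ P, a v x = 0) ∧ ρ v = 0 := by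
    intro v hv
    constructor
    · apply stable_zero d hd P fz hf
      intro z hz
      rw [ha v z hz, hSE v hv _ (hqE z hz) (hP z hz).1]
      simp
    · simp only [hρ]
      rw [hSE v hv r hrE hres]
      simp
  have hS3 : Q.lossS ⊆ S := Finset.subset_union_left
  have hwa : ∀ x ∈ P, ∑ v ∈ S, (Q.wt v : ℝ) * a v x = 0 := by
    apply stable_zero d hd P fz hf (fun x => ∑ v ∈ S, (Q.wt v : ℝ) * a v x)
    intro z hz
    have h1 := prod_zero Q S (q.eval z) (hP z hz).1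
      (fun v hv => hSE v hv _ (hqE z hz) (hP z hz).1)
    have h2 : ∑ v ∈ S, (Q.wt v : ℝ) * (Q.ord v (q.eval z) : ℝ) = 0 := by exact_mod_cast h1
    have h3 : (d : ℝ) * ∑ v ∈ S, (Q.wt v : ℝ) * a v z =
        ∑ v ∈ S, (Q.wt v : ℝ) * (Q.ord v (q.eval z) : ℝ) +
          ∑ v ∈ S, (Q.wt v : ℝ) * a v (fz z) := by
      rw [Finset.mul_sum, ← Finset.sum_add_distrib]
      apply Finset.sum_congr rfl
      intro v _
      have := ha v z hz
      linear_combination (Q.wt v : ℝ) * this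
    rw [h3, h2, zero_add]
  have hwρ : ∑ v ∈ S, (Q.wt v : ℝ) * ρ v = 0 := by
    have h1 := prod_zero Q S r hres (fun v hv => hSE v hv _ hrE hres)
    have h2 : ∑ v ∈ S, (Q.wt v : ℝ) * (Q.ord v r : ℝ) = 0 := by exact_mod_cast h1
    have h3 : ∑ v ∈ S, (Q.wt v : ℝ) * ρ v =
        (∑ v ∈ S, (Q.wt v : ℝ) * (Q.ord v r : ℝ)) / (d * ((d : ℝ) - 1)) := by
      rw [Finset.sum_div]
      apply Finset.sum_congr rfl
      intro v _
      simp only [hρ]
      ring
    rw [h3, h2, zero_div]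
  have hwt : ∀ v, (0 : ℝ) ≤ Q.wt v := fun v => by exact_mod_cast Q.wt_nonneg v
  have hwt1 : ∀ v, (1 : ℝ) ≤ Q.wt v := fun v => by exact_mod_cast Q.wt_one v
  have hpair : ∀ x ∈ P, ∀ y ∈ P, x ≠ y → ∑ v ∈ S, (Q.wt v : ℝ) * GG Q v (a v) (ρ v) x y = 0 := by
    intro x hx y hy hxy
    have h1 := prod_zero Q S (x - y) (sub_ne_zero.mpr hxy) fun v hv => hS1 v hv x hx y hy hxy
    have h2 : ∑ v ∈ S, (Q.wt v : ℝ) * (Q.ord v (x - y) : ℝ) = 0 := by exact_mod_cast h1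
    have h3 : ∀ v, (Q.wt v : ℝ) * GG Q v (a v) (ρ v) x y = (Q.wt v : ℝ) * (Q.ord v (x - y) : ℝ) -
        (Q.wt v : ℝ) * a v x - (Q.wt v : ℝ) * a v y + (Q.wt v : ℝ) * ρ v := by
      intro v
      unfold GG
      ring
    simp_rw [h3]
    rw [Finset.sum_add_distrib, Finset.sum_sub_distrib, Finset.sum_sub_distrib, h2, hwa x hx,
      hwa y hy, hwρ]
    ring
  have hGG0 : ∀ v, v ∉ S → ∀ x ∈ P, ∀ y ∈ P, x ≠ y → GG Q v (a v) (ρ v) x y = 0 := by
    intro v hv x hx y hy hxy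
    unfold GG
    rw [hS1 v hv x hx y hy hxy, (hS2 v hv).1 x hx, (hS2 v hv).1 y hy, (hS2 v hv).2]
    simp
  have hgood : ∀ v, (L v).R = 0 → ∀ x ∈ P, ∀ y ∈ P, x ≠ y → 0 ≤ GG Q v (a v) (ρ v) x y := by
    intro v hv x hx y hy hxy
    rw [(L v).GG_good hv hx hy hxy]
    exact Nat.cast_nonneg _
  -- the global inequality
  have hna : ∀ T ⊆ P, ∀ α β γ : K, (∀ x ∈ T, Q.D x = α * x ^ 2 + β * x + γ) →
      P.card < (d + 1) * (P \ T).card + (3 * d + 4) := by
    intro T hT α β γ hq2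
    by_contra hcon
    push Not at hcon
    exact hiso (conj_of_cross p q d hp hq hd hco P hP T hT
      (fun x0 h0 x1 h1 x2 h2 x hx _ _ _ _ _ => cross_of_quad Q T α β γ hq2 x0 x1 x2 x h0 h1 h2 hx)
      hcon)
  have hH := hglob k K Q S P a ρ L (by omega) hS1 hS2 hS3 hwa hwρ (by
    intro m hm hmM b _ F hF
    apply functional_countR Q p q d hd hp hq hco P hP m hna _ b F hF
    have h1 : (m + 3) * (d + 1) ≤ (M + 3) * (d + 1) := Nat.mul_le_mul_right _ (by omega)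
    omega)
  -- the bad places
  set Bd := S.filter fun v => 1 ≤ (L v).R with hBd
  have hBc : (Bd.card : ℝ) ≤ ∑ v ∈ S, (Q.wt v : ℝ) * (L v).R := by
    have h3 : ∑ v ∈ Bd, (Q.wt v : ℝ) * (L v).R ≤ ∑ v ∈ S, (Q.wt v : ℝ) * (L v).R :=
      Finset.sum_le_sum_of_subset_of_nonneg (Finset.filter_subset _ _) fun v _ _ =>
        mul_nonneg (hwt v) (Nat.cast_nonneg _)
    refine le_trans ?_ h3
    have h4 : (Bd.card : ℝ) = ∑ v ∈ Bd, (1 : ℝ) := by simp
    rw [h4]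
    apply Finset.sum_le_sum
    intro v hv
    have h5 : (1 : ℝ) ≤ (L v).R := by exact_mod_cast (Finset.mem_filter.mp hv).2
    have h6 := hwt1 v
    nlinarith
  have hBc2 : Bd.card ≤ 48 * d * (d + 1) * Q.lossT.toNat := by
    have h1 := hBc.trans hH
    have h2 : (Q.lossT : ℝ) ≤ (Q.lossT.toNat : ℝ) := by exact_mod_cast Int.self_le_toNat _
    have h3 : (Bd.card : ℝ) ≤ 48 * (d : ℝ) * (d + 1) * (Q.lossT.toNat : ℝ) :=
      h1.trans (mul_le_mul_of_nonneg_left h2 (by positivity))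
    exact_mod_cast h3
  have hAa : ∀ v, ∀ x ∈ P, A v x = a v x := by
    intro v x hx
    have h1 := stable_zero d hd P fz hf (fun z => A v z - a v z) (by
      intro z hz
      have e1 := hA v z hz
      have e2 := ha v z hz
      have e3 : (d : ℝ) * (A v z - a v z) = (d : ℝ) * A v z - (d : ℝ) * a v z := by ring
      rw [e3, e1, e2]
      ring) x hx
    linarith [h1]
  have hGGA : ∀ v, ∀ x ∈ P, ∀ y ∈ P, GG Q v (A v) (ρ v) x y = GG Q v (a v) (ρ v) x y := by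
    intro v x hx y hy
    unfold GG
    rw [hAa v x hx, hAa v y hy]
  refine ⟨⟨Bd, hBc2, ?_⟩, ?_⟩
  · intro v hv x hx y hy hxy
    show 0 ≤ GG Q v (A v) (ρ v) x y
    rw [hGGA v x hx y hy]
    by_cases hvS : v ∈ S
    · apply hgood v _ x hx y hy hxy
      by_contra hne
      exact hv (Finset.mem_filter.mpr ⟨hvS, Nat.one_le_iff_ne_zero.mpr hne⟩)
    · exact (hGG0 v hvS x hx y hy hxy).ge
  · by_contra hcon
    push Not at hcon
    apply hiso
    have hGGz : ∀ v, ∀ x ∈ P, ∀ y ∈ P, x ≠ y → GG Q v (a v) (ρ v) x y = 0 := by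
      intro v x hx y hy hxy
      rw [← hGGA v x hx y hy]
      exact hcon v x hx y hy hxy
    apply conj_of_cross p q d hp hq hd hco P hP P (Finset.Subset.refl _)
    · intro x0 h0 x1 h1 x2 h2 x hx h01 h02 h12 hx2 hx0
      have n1 := sub_ne_zero.mpr hx0
      have n2 := sub_ne_zero.mpr h12
      have n3 := sub_ne_zero.mpr hx2
      have n4 := sub_ne_zero.mpr h01.symm
      apply Q.const _ (div_ne_zero (mul_ne_zero n1 n2) (mul_ne_zero n3 n4))
      intro v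
      rw [PlaceData.ord_div (mul_ne_zero n1 n2) (mul_ne_zero n3 n4), Q.ord_mul v _ _ n1 n2,
        Q.ord_mul v _ _ n3 n4]
      have g1 := hGGz v x hx x0 h0 hx0
      have g2 := hGGz v x1 h1 x2 h2 h12
      have g3 := hGGz v x hx x2 h2 hx2
      have g4 := hGGz v x1 h1 x0 h0 h01.symm
      unfold GG at g1 g2 g3 g4
      have g5 : (Q.ord v (x - x0) : ℝ) + Q.ord v (x1 - x2) -
          (Q.ord v (x - x2) + Q.ord v (x1 - x0)) = 0 := by linarith
      have g6 : Q.ord v (x - x0) + Q.ord v (x1 - x2) -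
          (Q.ord v (x - x2) + Q.ord v (x1 - x0)) = 0 := by exact_mod_cast g5
      omega
    · rw [Finset.sdiff_self, Finset.card_empty, mul_zero, zero_add]
      omega

end Pool.Agent.TH450.FH
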