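import Pool.Agent.TH450.FG.G
import Pool.Agent.TH450.FH.Glob

/-!
# The bound in terms of the loss (helper450)
-/

set_option autoImplicit false

namespace Pool.Agent.TH450.FH

open Pool.Agent.H951R3.PB Pool.Agent.TH450.PC Pool.Agent.TH450.FG Real Finset
open Pool.Agent.W277.UB
open Pool.Agent.W277.UH hiding wd

universe u v w

/-- the absolute values of place data -/
noncomputable def pfQ {k : Type v} {K : Type u} [Field k] [Field K] [Algebra k K]
    (Q : PlaceData.{w} k K) : PF.{u, v, w} k K where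
  Pl := Q.Pl
  V := fun v => absO (Q.ord v) (Q.ord_mul v) (Q.ord_add v)
  na := fun v => absO_na _ _ _
  triv := by
    intro v c hc
    rw [absO_apply _ _ _ _ (by simpa using hc), Q.ord_alg v c hc]
    simp
  wt := fun v => Q.wt v
  wt_pos := by
    intro v
    have := Q.wt_one v
    exact_mod_cast (by omega : 0 < Q.wt v)
  fin := by
    intro x hx
    refine (Q.fin x hx).subset ?_
    intro v hv h0
    apply hv
    rw [absO_apply _ _ _ _ hx, h0]
    simp
  prod := by
    intro x hx S hS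
    have h1 : ∀ v, v ∉ S → Q.ord v x = 0 := by
      intro v hv
      have h2 := hS v hv
      rw [absO_apply _ _ _ _ hx] at h2
      have h3 : (-(Q.ord v x : ℝ)) = 0 := by
        rw [← Real.exp_eq_one_iff]
        exact h2
      have h4 : (Q.ord v x : ℝ) = 0 := by linarith
      exact_mod_cast h4
    have h5 := Pool.Agent.W277.UG.prod_zero Q S x hx h1
    have h6 : ∑ v ∈ S, (Q.wt v : ℝ) * log (absO (Q.ord v) (Q.ord_mul v) (Q.ord_add v) x) =
        -∑ v ∈ S, (Q.wt v : ℝ) * (Q.ord v x : ℝ) := by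
      rw [← Finset.sum_neg_distrib]
      refine Finset.sum_congr rfl fun v _ => ?_
      rw [absO_apply _ _ _ _ hx, Real.log_exp]
      ring
    rw [h6]
    have h7 : ∑ v ∈ S, (Q.wt v : ℝ) * (Q.ord v x : ℝ) = 0 := by exact_mod_cast h5
    rw [h7, neg_zero]
  const := by
    intro x hx h
    obtain ⟨c, hc⟩ := Q.const x hx (by
      intro v
      have h2 := h v
      rw [absO_apply _ _ _ _ hx] at h2
      have h3 : (-(Q.ord v x : ℝ)) = 0 := by
        rw [← Real.exp_eq_one_iff]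
        exact h2
      have h4 : (Q.ord v x : ℝ) = 0 := by linarith
      exact le_of_eq (by exact_mod_cast h4.symm))
    rw [← hc]
    exact isAlgebraic_algebraMap c

lemma pfQ_log {k : Type v} {K : Type u} [Field k] [Field K] [Algebra k K]
    (Q : PlaceData.{w} k K) (v : Q.Pl) (x : K) (hx : x ≠ 0) :
    log ((pfQ Q).V v x) = -(Q.ord v x : ℝ) := by
  show log (absO (Q.ord v) (Q.ord_mul v) (Q.ord_add v) x) = _
  rw [absO_apply _ _ _ _ hx, Real.log_exp]

lemma ev_affine {K : Type u} [Field K] {d : ℕ} {f : Fin 2 → MvPolynomial (Fin 2) K}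
    (hf : ∀ i, (f i).IsHomogeneous d) (z : K) (i : Fin 2) :
    ev f ![z, 1] i = (dh (f i)).eval z := by
  have h1 := E1.eval_of_ne (hf i) ![z, 1] (by simp)
  show MvPolynomial.eval ![z, 1] (f i) = _
  simpa using h1

lemma coprime_of_rs {K : Type u} [Field K] {d : ℕ} (hd : 1 ≤ d)
    {f : Fin 2 → MvPolynomial (Fin 2) K} (hf : ∀ i, (f i).IsHomogeneous d) (h0 : rs f d ≠ 0) :
    IsCoprime (dh (f 0)) (dh (f 1)) := by
  rw [Polynomial.isCoprime_iff_aeval_ne_zero_of_isAlgClosed K (AlgebraicClosure K)]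
  intro a
  by_contra hcon
  push Not at hcon
  have h1 := (rs_ne_zero_iff hd fun i => (hf i).map _).1 (F4_rs_ne h0) ![a, 1] (by
    funext i
    have h2 : ev (fL K f) ![a, 1] i = (dh (fL K f i)).eval a :=
      ev_affine (fun i => (hf i).map _) a i
    have h3 : (dh (fL K f i)).eval a = Polynomial.aeval a (dh (f i)) := by
      show (dh ((f i).map (algebraMap K (AlgebraicClosure K)))).eval a = _
      rw [E1.map_dh, Polynomial.eval_map, Polynomial.aeval_def]
    have h4 : ev (fL K f) ![a, 1] i = 0 := by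
      rw [h2, h3]
      fin_cases i
      · exact hcon.1
      · exact hcon.2
    exact h4)
  have h5 := congrFun h1 1
  simp at h5

/-- **The bound for stable sets.** -/
theorem core2 (d : ℕ) (hd : 2 ≤ d) : ∃ C : ℝ, 0 < C ∧ ∀ (k : Type v) (K : Type u) [Field k]
    [CharZero k] [Field K] [Algebra k K] (Q : PlaceData.{w} k K)
    (f : Fin 2 → MvPolynomial (Fin 2) K), (∀ i, (f i).IsHomogeneous d) → rs f d ≠ 0 →
    (dh (f 1)).natDegree = d → ¬ ConjConst k (dh (f 0)) (dh (f 1)) d →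
    ∀ P : Finset K, (∀ z ∈ P, (dh (f 1)).eval z ≠ 0 ∧
      (dh (f 0)).eval z / (dh (f 1)).eval z ∈ P) →
      (P.card : ℝ) ≤ C * (Q.lossT.toNat + 1) * log (Q.lossT.toNat + 2) := by
  obtain ⟨N₁, hglob⟩ := bad_set.{u, v, w} d hd
  obtain ⟨M, c, hc, Hgain⟩ := gainNA.{u} d hd
  set C₀ : ℝ := M * d + 2 / c + 1 with hC₀
  have hC₀pos : 0 < C₀ := by positivity
  set D₀ : ℝ := 48 * d * (d + 1) with hD₀
  have hdR : (2 : ℝ) ≤ d := by exact_mod_cast hd
  have hD₀1 : 1 ≤ D₀ := by rw [hD₀]; nlinarith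
  obtain ⟨C', hC', Hsolve⟩ := solve_bound hC₀pos D₀ hD₀1
  have hl2 : 0 < log (2 : ℝ) := log_pos (by norm_num)
  refine ⟨C' + N₁ / log 2, by positivity, ?_⟩
  intro k K _ _ _ _ Q f hf h0 hq hiso P hP
  classical
  set T : ℝ := (Q.lossT.toNat : ℝ) with hT
  have hT0 : 0 ≤ T := Nat.cast_nonneg _
  have hlog2 : log 2 ≤ log (T + 2) := log_le_log (by norm_num) (by linarith)
  by_cases hN : N₁ ≤ P.card
  swap
  · have h1 : (P.card : ℝ) ≤ N₁ := by exact_mod_cast (not_le.1 hN).le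
    calc (P.card : ℝ) ≤ N₁ := h1
      _ = N₁ / log 2 * 1 * log 2 := by rw [mul_one, div_mul_cancel₀ _ hl2.ne']
      _ ≤ N₁ / log 2 * (T + 1) * log (T + 2) := by
          gcongr
          linarith
      _ ≤ (C' + N₁ / log 2) * (T + 1) * log (T + 2) := by
          have h4 : 0 ≤ log (T + 2) := hl2.le.trans hlog2
          gcongr
          linarith
  set p := dh (f 0) with hp
  set q := dh (f 1) with hqd
  set fz : K → K := fun z => p.eval z / q.eval z with hfz
  set Q' := pfQ Q with hQ'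
  choose w hw using fun v : Q.Pl => exists_ext_gen (Q'.V v) (Q'.na v)
  have hna : ∀ v, IsNonarchimedean (w v) := fun v => ext_na (Q'.na v) (hw v)
  have hfib := fun v => F4_fib (by omega : 1 ≤ d) hf h0 (w v)
  have hvne : ∀ z : K, (![z, 1] : Fin 2 → K) ≠ 0 := by
    intro z h
    have := congrFun h 1
    simp at this
  set A : Q.Pl → K → ℝ := fun v z => -Gr (w v) (ev (fL K f)) d (vL K ![z, 1]) with hA
  have hpd : p.natDegree ≤ d := E1.natDegree_dh_le (hf 0)
  have hres : Polynomial.resultant q p d d ≠ 0 ∧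
      ∀ v, Q.ord v (Polynomial.resultant q p d d) = Q.ord v (rs f d) := by
    have h1 : Polynomial.resultant q p d d = (-1) ^ (d * d) * rs f d := by
      rw [Polynomial.resultant_comm]
      rfl
    rcases neg_one_pow_eq_or K (d * d) with h2 | h2
    · rw [h1, h2, one_mul]
      exact ⟨h0, fun v => rfl⟩
    · rw [h1, h2, neg_one_mul]
      exact ⟨neg_ne_zero.2 h0, fun v => PlaceData.ord_neg h0⟩
  have hmap : ∀ z : K, q.eval z ≠ 0 → ev f ![z, 1] = q.eval z • ![fz z, 1] := by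
    intro z hz
    funext i
    rw [ev_affine hf]
    fin_cases i
    · show p.eval z = q.eval z * (p.eval z / q.eval z)
      field_simp
    · show q.eval z = q.eval z * 1
      rw [mul_one]
  have hAeq : ∀ v, ∀ z ∈ P, (d : ℝ) * A v z = Q.ord v (q.eval z) + A v (p.eval z / q.eval z) := by
    intro v z hz
    have hz' := (hP z hz).1
    have h1 := gr_map hd (hfib v) (F4_vL_ne (hvne z))
    rw [F4_ev, hmap z hz'] at h1
    have h2 : vL K (q.eval z • ![fz z, 1]) =
        algebraMap K (AlgebraicClosure K) (q.eval z) • vL K ![fz z, 1] := by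
      funext i
      simp [vL]
    rw [h2, gr_smul hd (hfib v) (F4_vL_ne (hvne _)) (by simpa using hz'), hw v,
      pfQ_log Q v _ hz'] at h1
    show (d : ℝ) * (-Gr (w v) (ev (fL K f)) d (vL K ![z, 1])) = Q.ord v (q.eval z) +
      (-Gr (w v) (ev (fL K f)) d (vL K ![fz z, 1]))
    linarith
  have hGG : ∀ v (x y : K), x ≠ y → G d f (w v) ![x, 1] ![y, 1] = GG Q v (A v)
      ((Q.ord v (Polynomial.resultant q p d d) : ℝ) / (d * ((d : ℝ) - 1))) x y := by
    intro v x y hxy
    have h1 : wd (![x, 1] : Fin 2 → K) ![y, 1] = x - y := by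
      simp [wd]
    unfold G gg GG
    rw [F4_wd, h1, hw v, pfQ_log Q v _ (sub_ne_zero.2 hxy), F4_rs, hw v, pfQ_log Q v _ h0,
      hres.2 v]
    simp only [ta, hA]
    ring
  -- preperiodicity
  have hpre : ∀ z ∈ P, Pre f ![z, 1] := by
    intro z hz
    have hit : ∀ n : ℕ, ∃ y ∈ P, ∃ c : K, c ≠ 0 ∧ (ev f)^[n] ![z, 1] = c • ![y, 1] := by
      intro n
      induction n with
      | zero => exact ⟨z, hz, 1, one_ne_zero, by simp⟩
      | succ n ih =>
        obtain ⟨y, hy, c, hc0, hcy⟩ := ih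
        refine ⟨fz y, (hP y hy).2, c ^ d * q.eval y, mul_ne_zero (pow_ne_zero _ hc0) (hP y hy).1, ?_⟩
        rw [Function.iterate_succ_apply', hcy, ev_smul hf, hmap y (hP y hy).1, smul_smul]
    choose y hy c hc0 hcy using hit
    have hninj : ¬ Function.Injective (fun n : ℕ => (⟨y n, hy n⟩ : {y // y ∈ P})) :=
      not_injective_infinite_finite _
    rw [Function.Injective] at hninj
    push Not at hninj
    obtain ⟨a, b, hab, hne⟩ := hninj
    have hyab : y a = y b := congrArg Subtype.val hab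
    have key : ∀ a b : ℕ, a < b → y a = y b → Pre f ![z, 1] := by
      intro a b hlt hyab
      refine ⟨a, b, hlt, c b * (c a)⁻¹, mul_ne_zero (hc0 b) (inv_ne_zero (hc0 a)), ?_⟩
      rw [hcy a, hcy b, hyab, smul_smul, mul_assoc, inv_mul_cancel₀ (hc0 a), mul_one]
    rcases lt_or_gt_of_ne hne with h | h
    · exact key a b h hyab
    · exact key b a h hyab.symm
  obtain ⟨⟨Bd, hBd, hpos⟩, v₁, x₁, hx₁, y₁, hy₁, hxy₁, hne₁⟩ :=
    hglob k K Q p q hpd hq (coprime_of_rs (by omega) hf h0) P hP hiso hN A hAeq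
  have hwd : ∀ x y : K, x ≠ y → wd (![x, 1] : Fin 2 → K) ![y, 1] ≠ 0 := by
    intro x y hxy
    have h1 : wd (![x, 1] : Fin 2 → K) ![y, 1] = x - y := by
      simp [wd]
    rw [h1]
    exact sub_ne_zero.2 hxy
  have hwdL : ∀ x y : K, x ≠ y → wd (vL K (![x, 1] : Fin 2 → K)) (vL K ![y, 1]) ≠ 0 := by
    intro x y hxy
    rw [F4_wd]
    simpa using hwd x y hxy
  set B := Bd.filter fun v => 0 < msz d f (w v) with hB
  have hposB : ∀ v, v ∉ B → ∀ x ∈ P, ∀ y ∈ P, x ≠ y → 0 ≤ G d f (w v) ![x, 1] ![y, 1] := by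
    intro v hv x hx y hy hxy
    by_cases h1 : v ∈ Bd
    · have h2 : ¬ 0 < msz d f (w v) := fun h => hv (Finset.mem_filter.2 ⟨h1, h⟩)
      exact gg_nonneg d hd _ (w v) (hna v) _ _ (hfib v) (not_lt.1 h2) (hwdL x y hxy)
    · rw [hGG v x y hxy]
      exact hpos v h1 x hx y hy hxy
  have hwt : ∀ v : Q.Pl, (0 : ℝ) < Q'.wt v := Q'.wt_pos
  -- sums over a large finite set
  have hSxy : ∀ x y : K, ∃ S : Finset Q.Pl, x ∈ P → y ∈ P → x ≠ y →
      (∀ v, v ∉ S → G d f (w v) ![x, 1] ![y, 1] = 0) ∧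
      ∀ S', S ⊆ S' → ∑ v ∈ S', Q'.wt v * G d f (w v) ![x, 1] ![y, 1] = 0 := by
    intro x y
    by_cases h : x ∈ P ∧ y ∈ P ∧ x ≠ y
    · obtain ⟨S, hS1, hS⟩ := G_sum Q' w hw hd hf h0 (hpre x h.1) (hpre y h.2.1) (hwd x y h.2.2)
      exact ⟨S, fun _ _ _ => ⟨hS1, hS⟩⟩
    · exact ⟨∅, fun h1 h2 h3 => absurd ⟨h1, h2, h3⟩ h⟩
  choose Sf hSf using hSxy
  have hBne : B.Nonempty := by
    rw [Finset.nonempty_iff_ne_empty]
    intro hB0
    apply hne₁
    rw [← hGG v₁ x₁ y₁ hxy₁]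
    obtain ⟨hS1, hS2⟩ := hSf x₁ y₁ hx₁ hy₁ hxy₁
    by_cases hv : v₁ ∈ Sf x₁ y₁
    · have h1 := hS2 _ subset_rfl
      have h2 := (Finset.sum_eq_zero_iff_of_nonneg (fun v' _ => by
        have h3 := (hwt v').le
        exact mul_nonneg h3 (hposB v' (by rw [hB0]; exact Finset.notMem_empty _) x₁ hx₁ y₁ hy₁
          hxy₁))).1 h1 v₁ hv
      rcases mul_eq_zero.1 h2 with h3 | h3
      · exact absurd h3 (hwt v₁).ne'
      · exact h3
    · exact hS1 v₁ hv
  obtain ⟨v₀, hv₀⟩ := hBne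
  set S : Finset Q.Pl := B ∪ (P.biUnion fun x => P.biUnion fun y => Sf x y) with hS
  have hSsum : ∀ x ∈ P, ∀ y ∈ P, x ≠ y →
      ∑ v ∈ S, Q'.wt v * G d f (w v) ![x, 1] ![y, 1] = 0 := by
    intro x hx y hy hxy
    refine (hSf x y hx hy hxy).2 S ?_
    intro v hv
    rw [hS, Finset.mem_union, Finset.mem_biUnion]
    exact Or.inr ⟨x, hx, Finset.mem_biUnion.2 ⟨y, hy, hv⟩⟩
  haveI : Nonempty {v // v ∈ B} := ⟨⟨v₀, hv₀⟩⟩
  have hglob' : ∀ x ∈ P, ∀ y ∈ P, x ≠ y →
      ∑ t : {v // v ∈ B}, Q'.wt t.1 * G d f (w t.1) ![x, 1] ![y, 1] ≤ 0 := by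
    intro x hx y hy hxy
    rw [← hSsum x hx y hy hxy]
    rw [Finset.sum_coe_sort B (fun v => Q'.wt v * G d f (w v) ![x, 1] ![y, 1])]
    apply Finset.sum_le_sum_of_subset_of_nonneg Finset.subset_union_left
    intro v _ hv
    exact mul_nonneg (hwt v).le (hposB v hv x hx y hy hxy)
  have hmsz : ∀ t : {v // v ∈ B}, 0 < msz d f (w t.1) := fun t => (Finset.mem_filter.1 t.2).2
  have hcount := count_zero hd (fun t : {v // v ∈ B} => Q'.wt t.1 * msz d f (w t.1))
    (fun t => mul_pos (hwt t.1) (hmsz t))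
    (fun t x y => Q'.wt t.1 * G d f (w t.1) ![x, 1] ![y, 1]) hc P
    (by
      intro t n x hxinj hxX
      have h1 := lossNA d hd _ (w t.1) (hna _) (fL K f) (fun i => (hf i).map _)
        (F4_rs_ne h0) n (fun j => vL K ![x j, 1]) (fun j => F4_vL_ne (hvne _)) (by
          intro i j hij
          exact hwdL _ _ (fun h => hij (hxinj h)))
      have h2 := mul_le_mul_of_nonneg_left h1 (hwt t.1).le
      rw [Finset.mul_sum] at h2
      simp_rw [Finset.mul_sum] at h2
      refine le_trans (le_of_eq ?_) h2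
      unfold msz
      ring)
    (M := M) (by
      intro t
      obtain ⟨cell, hcell⟩ := Hgain _ (w t.1) (hna _) _ _ (hfib t.1) (hmsz t)
      refine ⟨fun x => cell (vL K ![x, 1]), ?_⟩
      intro x hx y hy hxy hcxy
      have h1 := hcell (vL K ![x, 1]) (vL K ![y, 1]) (hwdL x y hxy) hcxy
      have h2 := mul_le_mul_of_nonneg_left h1 (hwt t.1).le
      refine le_trans (le_of_eq ?_) h2
      unfold msz
      ring)
    hglob'
  have hcard : (Fintype.card {v // v ∈ B} : ℝ) ≤ D₀ * (T + 1) := by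
    rw [Fintype.card_coe]
    have h1 : B.card ≤ 48 * d * (d + 1) * Q.lossT.toNat :=
      (Finset.card_le_card (Finset.filter_subset _ _)).trans hBd
    have h2 : (B.card : ℝ) ≤ 48 * d * (d + 1) * T := by
      rw [hT]
      exact_mod_cast h1
    rw [← hD₀] at h2
    have : 0 ≤ D₀ := by linarith
    nlinarith
  have h1 : (P.card : ℝ) ≤ C₀ * (1 + C₀ * (D₀ * (T + 1)) * Nat.log d P.card) := by
    refine hcount.trans ?_
    have e1 : (M * d : ℝ) ≤ C₀ := by
      rw [hC₀]
      have : 0 < 2 / c := by positivity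
      linarith
    have e2 : 2 / c ≤ C₀ := by
      rw [hC₀]
      have : (0 : ℝ) ≤ M * d := by positivity
      linarith
    gcongr
  have hD₀0 : 0 ≤ D₀ := by linarith
  have h2 := Hsolve d P.card (T + 1) (D₀ * (T + 1)) hd (by linarith) le_rfl (by positivity) h1
  have h3 : (1 : ℝ) + (T + 1) = T + 2 := by ring
  rw [h3] at h2
  refine h2.trans ?_
  have h4 : 0 ≤ log (T + 2) := hl2.le.trans hlog2
  have h5 : (0 : ℝ) ≤ N₁ / log 2 := by positivity
  gcongr
  linarith

end Pool.Agent.TH450.FH
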