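import Pool.Agent.TH450.FH.Conj
import Pool.Agent.TH450.FH.Core

/-!
# From vectors to affine points (helper450)
-/

set_option autoImplicit false

namespace Pool.Agent.TH450.FH

open Pool.Agent.H951R3.PB Pool.Agent.TH450.PC Pool.Agent.TH450.FG Real Finset
open Pool.Agent.W277.UB
open Pool.Agent.W277.UH hiding wd

universe u v w

/-- **The bound for vectors.** -/
theorem core3 (d : ℕ) (hd : 2 ≤ d) : ∃ C : ℝ, 0 < C ∧ ∀ (k : Type v) (K : Type u) [Field k]
    [CharZero k] [Field K] [Algebra k K] (Q : PlaceData.{w} k K)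
    (f : Fin 2 → MvPolynomial (Fin 2) K), (∀ i, (f i).IsHomogeneous d) → rs f d ≠ 0 →
    (¬ ∃ (A : Matrix (Fin 2) (Fin 2) (AlgebraicClosure K)) (g : Fin 2 → MvPolynomial (Fin 2) k)
      (c : AlgebraicClosure K), A.det ≠ 0 ∧ (∀ i, (g i).IsHomogeneous d) ∧ c ≠ 0 ∧
      ∀ v : Fin 2 → AlgebraicClosure K, ev (fL K f) (A.mulVec v) =
        c • A.mulVec (ev (fun i => (g i).map (algebraMap k (AlgebraicClosure K))) v)) →
    ∀ X : Finset (Fin 2 → K), (∀ x ∈ X, x ≠ 0 ∧ Pre f x) →
      (∀ x ∈ X, ∀ y ∈ X, x ≠ y → wd x y ≠ 0) →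
      (X.card : ℝ) ≤ C * (Q.lossT.toNat + 1) * log (Q.lossT.toNat + 2) := by
  obtain ⟨C, hC, H⟩ := core2.{u, v, w} d hd
  refine ⟨C, hC, ?_⟩
  intro k K _ _ _ _ Q f hf h0 hiso X hX hXX
  classical
  haveI : CharZero K := charZero_of_injective_algebraMap (algebraMap k K).injective
  haveI : Infinite K := CharZero.infinite K
  set p := dh (f 0) with hp
  set q := dh (f 1) with hq
  have hz : ∀ x : Fin 2 → K, ev f x = 0 → x = 0 := by
    intro x hx
    by_contra hne
    apply F4_vL_ne hne
    apply (rs_ne_zero_iff (by omega) (f := fL K f) fun i => (hf i).map _).1 (F4_rs_ne h0)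
    rw [F4_ev, hx]
    funext i
    simp [vL]
  -- orbits
  choose! a b hab c hc hpre using fun x (hx : x ∈ X) => (hX x hx).2
  set O : Finset (Fin 2 → K) := X.biUnion fun x => (range (b x)).image fun i => (ev f)^[i] x
    with hO
  have hOne : ∀ y ∈ O, y ≠ 0 := by
    intro y hy
    rw [hO, Finset.mem_biUnion] at hy
    obtain ⟨x, hx, hy⟩ := hy
    rw [Finset.mem_image] at hy
    obtain ⟨i, -, rfl⟩ := hy
    clear hO
    induction i with
    | zero => exact (hX x hx).1
    | succ i ih =>
      rw [Function.iterate_succ_apply']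
      intro h
      exact ih (hz _ h)
  have hOst : ∀ y ∈ O, ∃ y' ∈ O, ∃ s : K, s ≠ 0 ∧ ev f y = s • y' := by
    intro y hy
    rw [hO, Finset.mem_biUnion] at hy
    obtain ⟨x, hx, hy⟩ := hy
    rw [Finset.mem_image] at hy
    obtain ⟨i, hi, rfl⟩ := hy
    rw [Finset.mem_range] at hi
    have hlt := hab x hx
    by_cases h : i + 1 < b x
    · refine ⟨(ev f)^[i + 1] x, ?_, 1, one_ne_zero, ?_⟩
      · rw [hO, Finset.mem_biUnion]
        exact ⟨x, hx, Finset.mem_image.2 ⟨i + 1, Finset.mem_range.2 h, rfl⟩⟩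
      · rw [one_smul, Function.iterate_succ_apply']
    · have hb : b x = i + 1 := by omega
      refine ⟨(ev f)^[a x] x, ?_, c x, hc x hx, ?_⟩
      · rw [hO, Finset.mem_biUnion]
        exact ⟨x, hx, Finset.mem_image.2 ⟨a x, Finset.mem_range.2 hlt, rfl⟩⟩
      · rw [← hpre x hx, hb, Function.iterate_succ_apply']
  have hXO : X ⊆ O := by
    intro x hx
    rw [hO, Finset.mem_biUnion]
    refine ⟨x, hx, Finset.mem_image.2 ⟨0, Finset.mem_range.2 ?_, rfl⟩⟩
    have := hab x hx
    omega
  -- the new point at infinity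
  have hpq : p - Polynomial.X * q ≠ 0 := by
    intro h
    have h1 : p = Polynomial.X * q := sub_eq_zero.1 h
    have h2 := coprime_of_rs (by omega) hf h0
    rw [← hp, ← hq, h1] at h2
    have h3 : IsUnit q := h2.isUnit_of_dvd' (dvd_mul_left q Polynomial.X) dvd_rfl
    obtain ⟨r, hr, hr'⟩ := Polynomial.isUnit_iff.1 h3
    -- `f` is a polynomial map of degree at most one
    have h4 : ev f ![1, 0] = 0 := by
      funext i
      have h5 := E1.eval_of_eq (hf i) ![1, 0] (by simp)
      show MvPolynomial.eval ![1, 0] (f i) = 0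
      rw [h5]
      fin_cases i
      · show (dh (f 0)).coeff d * _ = 0
        obtain ⟨e, rfl⟩ : ∃ e, d = e + 1 := ⟨d - 1, by omega⟩
        rw [← hp, h1, ← hr', Polynomial.coeff_X_mul, Polynomial.coeff_C, if_neg (by omega),
          zero_mul]
      · show (dh (f 1)).coeff d * _ = 0
        rw [← hq, ← hr', Polynomial.coeff_C, if_neg (by omega), zero_mul]
    have h6 := congrFun (hz _ h4) 0
    simp at h6
  obtain ⟨s, hs⟩ := Infinite.exists_notMem_finset
    ((p - Polynomial.X * q).roots.toFinset ∪ O.image fun y => y 0 / y 1)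
  rw [Finset.mem_union, not_or] at hs
  have hs1 : p.eval s - s * q.eval s ≠ 0 := by
    intro h
    apply hs.1
    rw [Multiset.mem_toFinset, Polynomial.mem_roots hpq, Polynomial.IsRoot.def,
      Polynomial.eval_sub, Polynomial.eval_mul, Polynomial.eval_X]
    exact h
  have hs2 : ∀ y ∈ O, y 0 - s * y 1 ≠ 0 := by
    intro y hy h
    by_cases h1 : y 1 = 0
    · apply hOne y hy
      funext i
      fin_cases i
      · show y 0 = 0
        rw [h1, mul_zero, sub_zero] at h
        exact h
      · exact h1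
    · apply hs.2
      rw [Finset.mem_image]
      refine ⟨y, hy, ?_⟩
      rw [div_eq_iff h1]
      linear_combination h
  set a1 : Fin 2 → K := ![s, 1] with ha1
  set b1 : Fin 2 → K := ![1, 0] with hb1
  have hwd : wd a1 b1 = -1 := by
    simp [wd, ha1, hb1]
  have hwd0 : wd a1 b1 ≠ 0 := by
    rw [hwd]
    norm_num
  obtain ⟨g, hg, hgrs, hgev, hgevL⟩ := cjK (by omega) hf h0 hwd0
  have hcoo : ∀ y, coo a1 b1 y = ![y 1, y 0 - s * y 1] := by
    intro y
    funext i
    fin_cases i
    · simp [coo, wd, ha1, hb1]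
    · simp [coo, wd, ha1, hb1]
      ring
  have hco1 : ∀ y ∈ O, coo a1 b1 y 1 ≠ 0 := by
    intro y hy
    rw [hcoo]
    exact hs2 y hy
  have hgd : (dh (g 1)).natDegree = d := by
    have h1 : (dh (g 1)).natDegree ≤ d := E1.natDegree_dh_le (hg 1)
    refine le_antisymm h1 (Polynomial.le_natDegree_of_ne_zero ?_)
    have h2 := E1.eval_of_eq (hg 1) ![1, 0] (by simp)
    have h3 : MvPolynomial.eval ![1, 0] (g 1) = ev g ![1, 0] 1 := rfl
    have h4 : emb a1 b1 ![1, 0] = ![s, 1] := by
      funext i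
      fin_cases i <;> simp [emb, ha1, hb1]
    rw [h3, hgev] at h2
    have h5 : cj a1 b1 (ev f) ![1, 0] 1 = p.eval s - s * q.eval s := by
      show coo a1 b1 (ev f (emb a1 b1 ![1, 0])) 1 = _
      rw [h4, hcoo]
      show ev f ![s, 1] 0 - s * ev f ![s, 1] 1 = _
      rw [ev_affine hf, ev_affine hf]
    rw [h5] at h2
    intro h
    apply hs1
    rw [h2, h, zero_mul]
  have hgiso : ¬ ConjConst k (dh (g 0)) (dh (g 1)) d := by
    intro h
    haveI : Infinite k := CharZero.infinite k
    obtain ⟨A, g', c', hA, hg', hc', hid⟩ := iso_of_conjConst (by omega) hg hgrs h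
    apply hiso
    set a' := vL K a1 with ha'
    set b' := vL K b1 with hb'
    have hab' : wd a' b' ≠ 0 := by
      rw [ha', hb', F4_wd]
      simpa using hwd0
    set B : Matrix (Fin 2) (Fin 2) (AlgebraicClosure K) :=
      Matrix.of fun i j => if j = 0 then a' i else b' i with hB
    have hemb : ∀ z : Fin 2 → AlgebraicClosure K, B.mulVec z = emb a' b' z := by
      intro z
      funext i
      simp only [hB, emb, Matrix.mulVec, dotProduct, Fin.sum_univ_two, Matrix.of_apply, if_true,
        one_ne_zero, if_false, Pi.add_apply, Pi.smul_apply, smul_eq_mul]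
      ring
    refine ⟨B * A, g', c', ?_, hg', hc', ?_⟩
    · rw [Matrix.det_mul]
      refine mul_ne_zero ?_ hA
      rw [Matrix.det_fin_two]
      simp only [hB, Matrix.of_apply, if_true, one_ne_zero, if_false]
      intro h
      apply hab'
      simp only [wd]
      linear_combination h
    · intro v
      rw [← Matrix.mulVec_mulVec, ← Matrix.mulVec_mulVec, hemb, ← Matrix.mulVec_smul, ← hid v,
        hgevL, hemb, cj, D2.emb_coo hab']
  have hgX := H k K Q g hg hgrs hgd hgiso
    (O.image fun y => coo a1 b1 y 0 / coo a1 b1 y 1) (by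
      intro z hz
      rw [Finset.mem_image] at hz
      obtain ⟨y, hy, rfl⟩ := hz
      have hy1 := hco1 y hy
      obtain ⟨y', hy', r, hr, hyr⟩ := hOst y hy
      have hy1' := hco1 y' hy'
      set z := coo a1 b1 y 0 / coo a1 b1 y 1 with hzdef
      have e1 : coo a1 b1 y = coo a1 b1 y 1 • ![z, 1] := by
        funext i
        fin_cases i
        · show coo a1 b1 y 0 = coo a1 b1 y 1 * z
          rw [hzdef]
          field_simp
        · show coo a1 b1 y 1 = coo a1 b1 y 1 * 1
          rw [mul_one]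
      have e2 : ev g (coo a1 b1 y) = r • coo a1 b1 y' := by
        rw [hgev, cj, D2.emb_coo hwd0, hyr, D2.coo_smul]
      have e3 : (coo a1 b1 y 1) ^ d • ev g ![z, 1] = r • coo a1 b1 y' := by
        rw [← e2, e1, ev_smul hg]
        simp
      have e4 : ∀ i, (coo a1 b1 y 1) ^ d * (dh (g i)).eval z = r * coo a1 b1 y' i := by
        intro i
        have := congrFun e3 i
        rw [Pi.smul_apply, Pi.smul_apply, ev_affine hg] at this
        exact this
      have hpw : (coo a1 b1 y 1) ^ d ≠ 0 := pow_ne_zero _ hy1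
      have e5 : (dh (g 1)).eval z ≠ 0 := by
        intro h
        have := e4 1
        rw [h, mul_zero] at this
        exact mul_ne_zero hr hy1' this.symm
      refine ⟨e5, ?_⟩
      rw [Finset.mem_image]
      refine ⟨y', hy', ?_⟩
      rw [div_eq_div_iff hy1' e5]
      apply mul_left_cancel₀ hpw
      apply mul_left_cancel₀ hr
      have f0 := e4 0
      have f1 := e4 1
      linear_combination (r * coo a1 b1 y' 0) * f1 - (r * coo a1 b1 y' 1) * f0)
  refine le_trans ?_ hgX
  have hcard : X.card ≤ (O.image fun y => coo a1 b1 y 0 / coo a1 b1 y 1).card := by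
    apply Finset.card_le_card_of_injOn (fun y => coo a1 b1 y 0 / coo a1 b1 y 1)
    · intro x hx
      exact Finset.mem_coe.2 (Finset.mem_image_of_mem _ (hXO hx))
    · intro x hx y hy hxy
      by_contra hne
      have hx' := Finset.mem_coe.1 hx
      have hy' := Finset.mem_coe.1 hy
      apply hXX x hx' y hy' hne
      have h1 := hco1 x (hXO hx')
      have h2 := hco1 y (hXO hy')
      have h3 : coo a1 b1 x 0 / coo a1 b1 x 1 = coo a1 b1 y 0 / coo a1 b1 y 1 := hxy
      rw [div_eq_div_iff h1 h2, hcoo, hcoo] at h3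
      have h4 : x 1 * (y 0 - s * y 1) = y 1 * (x 0 - s * x 1) := h3
      simp only [wd]
      linear_combination -h4
  exact_mod_cast hcard

end Pool.Agent.TH450.FH
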