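import Pool.Agent.TH450.FH.X4

/-!
# The ramification is bounded by the degree of the discriminant (helper450)
-/

set_option autoImplicit false
set_option maxHeartbeats 400000

namespace Pool.Agent.TH450.FH

open Polynomial Pool.Agent.W277.UB Pool.Agent.W277.UD Finset

universe w

/-- the smallest term dominates -/
lemma ord_add_eq {k L : Type*} [Field k] [Field L] [Algebra k L] {o : L → ℤ} (hv : Val k o) (m : ℤ)
    {x y : L} (hx0 : x ≠ 0) (hx : o x = m) (hy : GG o (m + 1) y) : x + y ≠ 0 ∧ o (x + y) = m := by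
  have hne : x + y ≠ 0 := by
    intro h
    have h1 : y = -x := by linear_combination h
    have h2 := hy (by rw [h1]; exact neg_ne_zero.2 hx0)
    rw [h1, hv.neg hx0, hx] at h2
    linarith
  refine ⟨hne, le_antisymm ?_ ?_⟩
  · by_contra hcon
    push Not at hcon
    have h1 : GG o (m + 1) (x + y) := fun _ => by linarith
    have h2 := hv.GG_sub h1 hy
    rw [add_sub_cancel_right] at h2
    have h3 := h2 hx0
    linarith
  · exact (hv.GG_add (fun _ => hx.ge) (GG_mono hy (by linarith))) hne

variable {k : Type*} {K : Type w} [Field k] [CharZero k] [Field K] [Algebra k K]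
  [Algebra (RatFunc k) K] [IsScalarTower k (RatFunc k) K] [FiniteDimensional (RatFunc k) K]
  {D : Derivation k K K}

/-- **The ramification is bounded by the discriminant.** -/
theorem disc_bound (c1 : ChartX.{w} k k[X] (RatFunc k) K D)
    (pr : c1.Pl → k[X]) (ev : c1.Pl → ℕ) (hpr : ∀ v, Prime (pr v)) (hev1 : ∀ v, 1 ≤ ev v)
    (hev : ∀ v, c1.ord v (algebraMap (RatFunc k) K (algebraMap k[X] (RatFunc k) (pr v))) = ev v)
    {ι : Type*} [Fintype ι] [DecidableEq ι] (b : Module.Basis ι (RatFunc k) K)
    (hb : ∀ i v, GG (c1.ord v) 0 (b i)) :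
    ∃ δ : k[X], algebraMap k[X] (RatFunc k) δ = Algebra.discr (RatFunc k) b ∧
      ∀ T : Finset c1.Pl, ∑ v ∈ T,
        (algebraMap k[X] (RatFunc k) (c1.g v)).intDegree * ((ev v : ℤ) - 1) ≤ δ.natDegree := by
  classical
  have : CharZero (RatFunc k) := charZero_of_injective_algebraMap
    (algebraMap k (RatFunc k)).injective
  have hinf : Infinite k := CharZero.infinite k
  have hinjF : Function.Injective (algebraMap k[X] (RatFunc k)) := RatFunc.algebraMap_injective k
  have hinj : ∀ r : k[X], r ≠ 0 → algebraMap (RatFunc k) K (algebraMap k[X] (RatFunc k) r) ≠ 0 := by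
    intro r hr
    rw [Ne, map_eq_zero_iff _ (algebraMap (RatFunc k) K).injective, map_eq_zero_iff _ hinjF]
    exact hr
  have hGGp : ∀ v (r : k[X]),
      GG (c1.ord v) 0 (algebraMap (RatFunc k) K (algebraMap k[X] (RatFunc k) r)) := by
    intro v r h
    refine c1.ord_R v r ?_
    rintro rfl
    simp at h
  -- the prime below a place is unique
  have huniq : ∀ v (w : k[X]), Prime w →
      0 < c1.ord v (algebraMap (RatFunc k) K (algebraMap k[X] (RatFunc k) w)) →
      c1.ord v (algebraMap (RatFunc k) K (algebraMap k[X] (RatFunc k) w)) = ev v := by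
    intro v w hw hpos
    have hass : Associated w (pr v) := by
      by_contra hna
      have hcop : IsCoprime w (pr v) := by
        rw [hw.irreducible.coprime_iff_not_dvd]
        intro hdvd
        exact hna (hw.associated_of_dvd (hpr v) hdvd)
      obtain ⟨a, c, hac⟩ := hcop
      have h1 := congrArg (fun r => algebraMap (RatFunc k) K (algebraMap k[X] (RatFunc k) r)) hac
      simp only [map_add, map_mul, map_one] at h1
      have h2 : GG (c1.ord v) 1 (1 : K) := by
        rw [← h1]
        apply (c1.val v).GG_add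
        · have := (c1.val v).GG_mul (hGGp v a) (n := 1) (fun _ => by linarith) (y :=
            algebraMap (RatFunc k) K (algebraMap k[X] (RatFunc k) w))
          simpa using this
        · have := (c1.val v).GG_mul (hGGp v c) (n := 1) (fun _ => by
            rw [hev v]
            exact_mod_cast hev1 v) (y :=
            algebraMap (RatFunc k) K (algebraMap k[X] (RatFunc k) (pr v)))
          simpa using this
      have h3 := h2 one_ne_zero
      rw [(c1.val v).one] at h3
      norm_num at h3
    obtain ⟨u, hu⟩ := hass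
    obtain ⟨c, hc, hcu⟩ := Polynomial.isUnit_iff.1 u.isUnit
    have h1 : algebraMap (RatFunc k) K (algebraMap k[X] (RatFunc k) (C c)) = algebraMap k K c := by
      rw [RatFunc.algebraMap_C, IsScalarTower.algebraMap_apply k (RatFunc k) K]
      rfl
    rw [← hev v, ← hu, ← hcu, map_mul, map_mul, h1, (c1.val v).mul _ _ (hinj w hw.ne_zero)
      (by simpa using hc.ne_zero), (c1.val v).alg c hc.ne_zero, add_zero]
  -- traces
  have htr : ∀ y : K, (∀ v, GG (c1.ord v) (-((ev v : ℤ) - 1)) y) →
      ∃ r : k[X], algebraMap k[X] (RatFunc k) r = Algebra.trace (RatFunc k) K y := by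
    intro y hy
    apply c1.tr y
    intro v w hw hpos
    rw [huniq v w hw hpos]
    exact hy v
  have hev0 : ∀ v, -((ev v : ℤ) - 1) ≤ 0 := by
    intro v
    have := hev1 v
    omega
  have hbb : ∀ i j v, GG (c1.ord v) 0 (b i * b j) := by
    intro i j v
    simpa using (c1.val v).GG_mul (hb i v) (hb j v)
  choose t ht using fun i j => htr (b i * b j) (fun v => GG_mono (hbb i j v) (hev0 v))
  set δ : k[X] := (Matrix.of t).det with hδ
  have hδ' : algebraMap k[X] (RatFunc k) δ = Algebra.discr (RatFunc k) b := by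
    rw [hδ, RingHom.map_det, Algebra.discr_def]
    congr 1
    ext i j
    rw [RingHom.mapMatrix_apply, Matrix.map_apply, Matrix.of_apply, ht, Algebra.traceMatrix_apply,
      Algebra.traceForm_apply]
  have hδ0 : δ ≠ 0 := by
    intro h
    have h1 := Algebra.discr_not_zero_of_basis (RatFunc k) b
    rw [← hδ', h, map_zero] at h1
    exact h1 rfl
  refine ⟨δ, hδ', fun T => ?_⟩
  set V0 : Finset c1.Pl := T ∪ T.biUnion fun v' => (c1.g_fin (c1.g v') (c1.g_ne v')).toFinset with hV0
  set V1 : Finset c1.Pl := V0.filter fun v => ev v ≠ 1 with hV1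
  choose yv hyv0 hyv1 hyv2 using fun v => c1.pole v (pr v) (hpr v).ne_zero (ev v) (hev1 v) (hev v)
  set y1 : K := ∑ v ∈ V1, yv v with hy1
  -- the choice of the constant
  have hsub : ∀ u, {c : k | GG (c1.ord u) 1 (y1 + algebraMap k K c)}.Finite := by
    intro u
    apply Set.Subsingleton.finite
    intro c hc c' hc'
    by_contra hne
    have h1 := (c1.val u).GG_sub (x := y1 + algebraMap k K c) (y := y1 + algebraMap k K c') hc hc'
    have h2 : y1 + algebraMap k K c - (y1 + algebraMap k K c') = algebraMap k K (c - c') := by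
      rw [map_sub]
      ring
    rw [h2] at h1
    have h3 := h1 (by simpa [sub_eq_zero] using hne)
    rw [(c1.val u).alg _ (sub_ne_zero.2 hne)] at h3
    norm_num at h3
  have hsub0 : {c : k | y1 + algebraMap k K c = 0}.Finite := by
    apply Set.Subsingleton.finite
    intro c hc c' hc'
    have h1 : y1 + algebraMap k K c = y1 + algebraMap k K c' := by
      rw [Set.mem_setOf_eq] at hc hc'
      rw [hc, hc']
    exact (algebraMap k K).injective (add_left_cancel h1)
  have hbad : (({c : k | y1 + algebraMap k K c = 0} : Set k) ∪ ⋃ u ∈ V0,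
      {c : k | GG (c1.ord u) 1 (y1 + algebraMap k K c)}).Finite :=
    hsub0.union (V0.finite_toSet.biUnion fun u _ => hsub u)
  obtain ⟨c, hc⟩ := hbad.infinite_compl.nonempty
  rw [Set.mem_compl_iff, Set.mem_union, not_or] at hc
  obtain ⟨hc0, hc1⟩ := hc
  set y : K := y1 + algebraMap k K c with hy
  have hy0 : y ≠ 0 := hc0
  have hcGG : ∀ u, GG (c1.ord u) 0 (algebraMap k K c) := by
    intro u h
    rw [(c1.val u).alg]
    rintro rfl
    exact h (map_zero _)
  have hyvGG : ∀ v u, GG (c1.ord u) (-((ev u : ℤ) - 1)) (yv v) := by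
    intro v u _
    by_cases h : u = v
    · subst h
      exact (hyv1 u).ge
    · exact (hev0 u).trans (hyv2 v u h)
  have hyGG : ∀ u, GG (c1.ord u) (-((ev u : ℤ) - 1)) y := by
    intro u
    apply (c1.val u).GG_add
    · exact GG_sum (c1.val u) _ V1 yv fun v _ => hyvGG v u
    · exact GG_mono (hcGG u) (hev0 u)
  have hyout : ∀ u, u ∉ V0 → 0 ≤ c1.ord u y := by
    intro u hu
    have h1 : GG (c1.ord u) 0 y := by
      apply (c1.val u).GG_add
      · apply GG_sum (c1.val u) 0 V1 yv
        intro v hv _
        apply hyv2 v u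
        rintro rfl
        exact hu (Finset.mem_filter.1 hv).1
      · exact hcGG u
    exact h1 hy0
  have hyord : ∀ u ∈ V0, c1.ord u y = -((ev u : ℤ) - 1) := by
    intro u hu
    by_cases h : ev u = 1
    · rw [h]
      have h1 : GG (c1.ord u) 0 y := by
        have := hyGG u
        rw [h] at this
        simpa using this
      have h2 : ¬ GG (c1.ord u) 1 y := by
        intro h2
        apply hc1
        rw [Set.mem_iUnion₂]
        exact ⟨u, hu, h2⟩
      have h3 := h1 hy0
      have h4 : ¬ (1 ≤ c1.ord u y) := fun h4 => h2 fun _ => h4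
      push_cast
      omega
    · have hu1 : u ∈ V1 := Finset.mem_filter.2 ⟨hu, h⟩
      have h1 : y = yv u + (∑ v ∈ V1.erase u, yv v + algebraMap k K c) := by
        rw [hy, hy1, ← Finset.add_sum_erase V1 yv hu1]
        ring
      rw [h1]
      refine (ord_add_eq (c1.val u) _ (hyv0 u) (hyv1 u) ?_).2
      have h2 : -((ev u : ℤ) - 1) + 1 ≤ 0 := by
        have := hev1 u
        omega
      refine GG_mono ?_ h2
      apply (c1.val u).GG_add
      · apply GG_sum (c1.val u) 0
        intro v hv _
        exact hyv2 v u (Finset.ne_of_mem_erase hv).symm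
      · exact hcGG u
  -- the matrix of traces
  choose t' ht' using fun i j => htr (y * b i * b j) (fun v => by
    have := (c1.val v).GG_mul (hyGG v) (hbb i j v)
    rw [add_zero, ← mul_assoc] at this
    exact this)
  set δ' : k[X] := (Matrix.of t').det with hδ2
  have hδ2' : algebraMap k[X] (RatFunc k) δ' =
      Algebra.norm (RatFunc k) y * Algebra.discr (RatFunc k) b := by
    rw [hδ2, RingHom.map_det, Algebra.discr_def, Algebra.norm_eq_matrix_det b,
      ← Matrix.det_transpose (Algebra.leftMulMatrix b y), ← Matrix.det_mul]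
    congr 1
    ext i j
    rw [RingHom.mapMatrix_apply, Matrix.map_apply, Matrix.of_apply, ht', Matrix.mul_apply]
    simp only [Matrix.transpose_apply, Algebra.traceMatrix_apply, Algebra.traceForm_apply]
    have h1 : y * b i = ∑ l, Algebra.leftMulMatrix b y l i • b l := by
      rw [← b.sum_repr (y * b i)]
      refine Finset.sum_congr rfl fun l _ => ?_
      rw [Algebra.leftMulMatrix_eq_repr_mul]
    rw [h1, Finset.sum_mul, map_sum]
    refine Finset.sum_congr rfl fun l _ => ?_
    rw [smul_mul_assoc, map_smul, smul_eq_mul]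
  -- the norm
  set T' : Finset c1.Pl := V0 ∪ (c1.fin y hy0).toFinset with hT'
  obtain ⟨ε, hε, hnorm⟩ := c1.norm y hy0 T' (by
    intro v hv
    by_contra h
    exact hv (by simp [hT', h]))
  set Z : k[X] := ∏ v ∈ T' \ V0, c1.g v ^ (c1.ord v y).toNat with hZ
  set W0 : k[X] := ∏ v ∈ V0, c1.g v ^ (ev v - 1) with hW0
  have hpoly : δ' * W0 = ε * Z * δ := by
    apply hinjF
    rw [map_mul, map_mul, map_mul, hδ2', hnorm, hδ']
    have h1 : ∏ v ∈ T', algebraMap k[X] (RatFunc k) (c1.g v) ^ c1.ord v y =
        (∏ v ∈ T' \ V0, algebraMap k[X] (RatFunc k) (c1.g v) ^ c1.ord v y) *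
        ∏ v ∈ V0, algebraMap k[X] (RatFunc k) (c1.g v) ^ c1.ord v y :=
      (Finset.prod_sdiff Finset.subset_union_left).symm
    have h2 : ∏ v ∈ T' \ V0, algebraMap k[X] (RatFunc k) (c1.g v) ^ c1.ord v y =
        algebraMap k[X] (RatFunc k) Z := by
      rw [hZ, map_prod]
      refine Finset.prod_congr rfl fun v hv => ?_
      rw [map_pow, ← zpow_natCast, Int.toNat_of_nonneg (hyout v (Finset.mem_sdiff.1 hv).2)]
    have h3 : (∏ v ∈ V0, algebraMap k[X] (RatFunc k) (c1.g v) ^ c1.ord v y) *
        algebraMap k[X] (RatFunc k) W0 = 1 := by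
      rw [hW0, map_prod, ← Finset.prod_mul_distrib]
      refine Finset.prod_eq_one fun v hv => ?_
      rw [map_pow, hyord v hv, ← zpow_natCast, ← zpow_add₀ (c1.toChartN.g_ne' v)]
      have h4 : -((ev v : ℤ) - 1) + ((ev v - 1 : ℕ) : ℤ) = 0 := by
        have := hev1 v
        omega
      rw [h4, zpow_zero]
    rw [h1, h2]
    linear_combination (algebraMap k[X] (RatFunc k) ε * algebraMap k[X] (RatFunc k) Z *
      Algebra.discr (RatFunc k) b) * h3
  set WT : k[X] := ∏ v ∈ T, c1.g v ^ (ev v - 1) with hWT
  have hTV : T ⊆ V0 := Finset.subset_union_left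
  have hdvd : WT ∣ ε * Z * δ := by
    rw [← hpoly]
    exact (Finset.prod_dvd_prod_of_subset _ _ _ hTV).trans (dvd_mul_left _ _)
  have hcopZ : IsCoprime WT Z := by
    rw [hWT, hZ]
    apply IsCoprime.prod_left
    intro v hv
    apply IsCoprime.prod_right
    intro u hu
    apply IsCoprime.pow
    by_contra hcon
    apply (Finset.mem_sdiff.1 hu).2
    rw [hV0, Finset.mem_union, Finset.mem_biUnion]
    right
    refine ⟨v, hv, ?_⟩
    rw [Set.Finite.mem_toFinset]
    exact hcon
  have hcop : IsCoprime WT (ε * Z) := by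
    apply IsCoprime.mul_right _ hcopZ
    obtain ⟨u, rfl⟩ := hε
    exact ⟨0, (u⁻¹ : (k[X])ˣ), by simp⟩
  have hWδ : WT ∣ δ := hcop.dvd_of_dvd_mul_left hdvd
  have hdeg := natDegree_le_of_dvd hWδ hδ0
  have hWdeg : (WT.natDegree : ℤ) = ∑ v ∈ T,
      (algebraMap k[X] (RatFunc k) (c1.g v)).intDegree * ((ev v : ℤ) - 1) := by
    rw [hWT, natDegree_prod _ _ fun v _ => pow_ne_zero _ (c1.g_ne v)]
    push_cast
    refine Finset.sum_congr rfl fun v _ => ?_
    rw [natDegree_pow, RatFunc.intDegree_polynomial]
    push_cast [Nat.cast_sub (hev1 v)]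
    ring
  rw [← hWdeg]
  exact_mod_cast hdeg

end Pool.Agent.TH450.FH
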