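import Pool.Agent.TH450.FH.X5
import Pool.Agent.TH450.FH.X6
import Pool.Agent.TH450.FH.Fin
import Pool.Agent.TH450.FG.H

/-!
# The bound in terms of the discriminant (helper450)
-/

set_option autoImplicit false
set_option maxHeartbeats 400000

namespace Pool.Agent.TH450.FH

open Pool.Agent.H951R3.PB Pool.Agent.TH450.PC Pool.Agent.TH450.FG Finset
open Pool.Agent.W277.UB Pool.Agent.W277.UD

universe u v

lemma log_est2 {x : ℝ} (hx : 0 ≤ x) : Real.log (2 * x + 2) ≤ 2 * Real.log (x + 2) := by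
  have h1 : 2 * x + 2 ≤ (x + 2) ^ 2 := by nlinarith
  calc Real.log (2 * x + 2) ≤ Real.log ((x + 2) ^ 2) := Real.log_le_log (by linarith) h1
    _ = 2 * Real.log (x + 2) := by rw [Real.log_pow]; norm_num

theorem main_disc (d : ℕ) (hd : 2 ≤ d) : ∃ C : ℝ, 0 < C ∧
    ∀ (k : Type v) (K : Type u) [Field k] [CharZero k] [Field K] [Algebra k K]
      [Algebra (RatFunc k) K] [IsScalarTower k (RatFunc k) K] [FiniteDimensional (RatFunc k) K]
      (n : ℕ) (b : Module.Basis (Fin n) (RatFunc k) K),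
      (∀ i, ((algebraMap (RatFunc k) K).comp
        (algebraMap (Polynomial k) (RatFunc k))).IsIntegralElem (b i)) →
    ∃ δ : Polynomial k, algebraMap (Polynomial k) (RatFunc k) δ = Algebra.discr (RatFunc k) b ∧
    ∀ f : Fin 2 → MvPolynomial (Fin 2) K, (∀ i, (f i).IsHomogeneous d) →
      (∀ x : Fin 2 → AlgebraicClosure K, (∀ i, MvPolynomial.aeval x (f i) = 0) → x = 0) →
      ¬ Isotrivial k d f →
    ∀ X : Finset (Fin 2 → K), (∀ x ∈ X, x ≠ 0) →
      (∀ x ∈ X, ∀ y ∈ X, ∀ c : K, x = c • y → x = y) →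
      (∀ x ∈ X, ∃ m n : ℕ, m < n ∧ ∃ c : K, c ≠ 0 ∧
        (fun v : Fin 2 → K => fun i => MvPolynomial.eval v (f i))^[n] x =
          c • (fun v : Fin 2 → K => fun i => MvPolynomial.eval v (f i))^[m] x) →
      (X.card : ℝ) ≤ C * (δ.natDegree + 1) * Real.log (δ.natDegree + 2) := by
  obtain ⟨C, hC, H⟩ := core3.{u, u, u} d hd
  refine ⟨4 * C, by positivity, ?_⟩
  intro k K _ _ _ _ _ _ _ n b hb
  classical
  obtain ⟨D0, hD0, hDker⟩ := exists_deriv k K
  obtain ⟨c1⟩ := exists_chartX1 k K D0 hD0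
  obtain ⟨c2⟩ := exists_chartX2 k K D0 hD0
  choose pr hpr hprpos using fun v => exists_prime_v c1 v
  set ram : c1.Pl → ℕ := fun v => (c1.ord v (algebraMap (RatFunc k) K
    (algebraMap (Polynomial k) (RatFunc k) (pr v)))).toNat with hev
  have hev' : ∀ v, c1.ord v (algebraMap (RatFunc k) K
      (algebraMap (Polynomial k) (RatFunc k) (pr v))) = ram v := by
    intro v
    rw [hev]
    simp only
    rw [Int.toNat_of_nonneg (hprpos v).le]
  have hev1 : ∀ v, 1 ≤ ram v := by
    intro v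
    have h1 := hprpos v
    rw [hev' v] at h1
    exact_mod_cast h1
  have hφ : ∀ v (r : Polynomial k), GG (c1.ord v) 0 (((algebraMap (RatFunc k) K).comp
      (algebraMap (Polynomial k) (RatFunc k))) r) := by
    intro v r h
    refine c1.ord_R v r ?_
    rintro rfl
    simp at h
  obtain ⟨δ, hδ, hT⟩ := disc_bound c1 pr ram hpr hev1 hev' b
    (fun i v => GG_of_integral (c1.val v) _ (hφ v) (b i) (hb i))
  obtain ⟨Q, hQ⟩ := exists_pdR k K D0 hD0 hDker c1 c2 pr ram hpr hev1 hev' _ hT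
  refine ⟨δ, hδ, ?_⟩
  intro f hf hz hiso X hX0 hXc hXp
  have h0 : rs f d ≠ 0 := rs_ne_of_noZero (by omega) hf hz
  have hfinal := H (algebraicClosure k K) K Q f hf h0 (by
    rintro ⟨A, g, c, hA, hg, hc, hconj⟩
    apply hiso
    refine ⟨A, fun i => (g i).map (algebraMap (algebraicClosure k K) (AlgebraicClosure K)), hA,
      fun i => (hg i).map _, ?_, ?_⟩
    · intro i m
      rw [MvPolynomial.coeff_map]
      have h1 : IsAlgebraic k (((g i).coeff m : algebraicClosure k K) : K) :=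
        mem_algebraicClosure_iff.1 ((g i).coeff m).2
      have h2 : algebraMap (algebraicClosure k K) (AlgebraicClosure K) ((g i).coeff m) =
          algebraMap K (AlgebraicClosure K) (((g i).coeff m : algebraicClosure k K) : K) := rfl
      rw [h2]
      exact h1.algebraMap
    · intro x _
      refine ⟨c, hc, ?_⟩
      have h1 := hconj x
      have h2 : (fun i => MvPolynomial.aeval (A.mulVec x) (f i)) = ev (fL K f) (A.mulVec x) := by
        funext i
        simp only [ev, fL]
        rw [MvPolynomial.eval_map, MvPolynomial.aeval_def]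
      rw [h2, h1]
      rfl) X (by
    intro x hx
    exact ⟨hX0 x hx, hXp x hx⟩) (by
    intro x hx y hy hxy h
    obtain ⟨a, ha⟩ := B1_parallel (hX0 y hy) h
    exact hxy (hXc x hx y hy a ha))
  set x : ℝ := (δ.natDegree : ℝ) with hx
  have hx0 : 0 ≤ x := Nat.cast_nonneg _
  have hTx : (Q.lossT.toNat : ℝ) ≤ 2 * x := by
    rw [hx]
    have h1 : Q.lossT.toNat ≤ 2 * δ.natDegree := by omega
    exact_mod_cast h1
  have hT0 : (0 : ℝ) ≤ Q.lossT.toNat := Nat.cast_nonneg _
  have hl := log_est2 hx0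
  have hlx : 0 ≤ Real.log (x + 2) := Real.log_nonneg (by linarith)
  calc (X.card : ℝ) ≤ C * (Q.lossT.toNat + 1) * Real.log (Q.lossT.toNat + 2) := hfinal
    _ ≤ C * (2 * (x + 1)) * (2 * Real.log (x + 2)) := by
        have e1 : (Q.lossT.toNat : ℝ) + 1 ≤ 2 * (x + 1) := by linarith
        have e2 : Real.log ((Q.lossT.toNat : ℝ) + 2) ≤ 2 * Real.log (x + 2) :=
          (Real.log_le_log (by linarith) (by linarith)).trans hl
        have e3 : 0 ≤ Real.log ((Q.lossT.toNat : ℝ) + 2) := Real.log_nonneg (by linarith)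
        gcongr
    _ = 4 * C * (x + 1) * Real.log (x + 2) := by ring

end Pool.Agent.TH450.FH
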