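import Mathlib
import Pool.Agent.W277.UD.Seid

/-!
# Tame loss of a derivation (helper450, after W277.UD.Seid)
-/

set_option autoImplicit false

namespace Pool.Agent.TH450.FH

open Polynomial Pool.Agent.W277.UD

variable {k L : Type*} [Field k] [Field L] [Algebra k L] {o : L → ℤ}

/-- The loss of a derivation at a place, from one element whose derivative is a unit. -/
theorem tame [CharZero k] (hv : Val k o) (D : Derivation k L L)
    (hdl : ∃ m0 : ℕ, ∀ x, x ≠ 0 → 0 ≤ o x → GG o (-m0) (D x)) (x0 : L) (e : ℕ) (he : 1 ≤ e)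
    (hx0 : x0 ≠ 0) (ho : o x0 = e) (hDo : o (D x0) = 0) :
    ∀ x, GG o 0 x → GG o (-((e : ℤ) - 1)) (D x) := by
  classical
  obtain ⟨m, hm, hmin⟩ : ∃ m : ℕ, (∀ x, x ≠ 0 → 0 ≤ o x → GG o (-m) (D x)) ∧
      ∀ m' < m, ¬ ∀ x, x ≠ 0 → 0 ≤ o x → GG o (-m') (D x) :=
    ⟨Nat.find hdl, Nat.find_spec hdl, fun m' h => Nat.find_min hdl h⟩
  have hfin : ∀ x, GG o 0 x → GG o (-m) (D x) := by
    intro x hx
    by_cases hx0 : x = 0
    · subst hx0
      rw [map_zero]
      exact GG_zero
    · exact hm x hx0 (hx hx0)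
  rcases Nat.eq_zero_or_pos m with h0 | hpos
  · subst h0
    intro x hx
    refine GG_mono (hfin x hx) ?_
    have : (1 : ℤ) ≤ e := by exact_mod_cast he
    push_cast
    linarith
  obtain ⟨π, hπ0, hπ⟩ := hv.unif
  -- the derivative of the uniformizer
  have hDπ : D π ≠ 0 ∧ o (D π) = -m := by
    by_contra hcon
    have h1 : GG o (-m + 1) (D π) := by
      intro h
      have h2 := hm π hπ0 (by rw [hπ]; norm_num) h
      have h3 : o (D π) ≠ -m := fun h3 => hcon ⟨h, h3⟩
      omega
    have h2 : ∀ y, GG o 1 y → GG o (-m + 1) (D y) := by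
      intro y hy
      by_cases hy0 : y = 0
      · subst hy0
        rw [map_zero]
        exact GG_zero
      · have h3 : y = π * (y / π) := by field_simp
        have h4 : o (y / π) = o y - 1 := by rw [hv.div hy0 hπ0, hπ]
        have h5 := hy hy0
        have h6 : y / π ≠ 0 := div_ne_zero hy0 hπ0
        rw [h3, Derivation.leibniz]
        simp only [smul_eq_mul]
        apply hv.GG_add
        · refine GG_mono (hv.GG_mul (m := 1) (n := -m) (fun _ => hπ.ge) ?_) (by linarith)
          exact hm _ h6 (by rw [h4]; linarith)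
        · refine GG_mono (hv.GG_mul (m := 0) (n := -m + 1) (fun _ => ?_) h1) (by linarith)
          rw [h4]
          linarith
    apply hmin (m - 1) (by omega)
    intro x hx hxo
    obtain ⟨s, hs, p, hp1, hp2, hp3⟩ := hv.res x hx hxo
    have h3 : D x = D (x - s) + D s := by
      rw [← map_add]
      congr 1
      ring
    have h4 : GG o (-m + 1) (D s) := by
      have h5 := h2 _ hp1
      rw [Derivation.map_aeval] at h5
      intro h
      have h6 := h5 (smul_ne_zero hp2 h)
      rw [smul_eq_mul, hv.mul _ _ hp2 h, hp3] at h6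
      linarith
    rw [h3]
    refine GG_mono (hv.GG_add (h2 _ hs) h4) ?_
    push_cast [Nat.cast_sub (show 1 ≤ m by omega)]
    linarith
  -- exact order of derivatives
  have hexact : ∀ (γ : ℕ) (x : L), 1 ≤ γ → x ≠ 0 → o x = γ → D x ≠ 0 ∧ o (D x) = γ - 1 - m := by
    intro γ x hγ hx hxo
    set ε := x / π ^ γ with hε
    have hπγ : π ^ γ ≠ 0 := pow_ne_zero _ hπ0
    have hε0 : ε ≠ 0 := div_ne_zero hx hπγ
    have hεo : o ε = 0 := by
      rw [hε, hv.div hx hπγ, hv.pow hπ0, hπ, hxo]
      ring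
    have hxe : x = π ^ γ * ε := by
      rw [hε]
      field_simp
    have hγ0 : (algebraMap k L (γ : k)) ≠ 0 := by
      rw [Ne, map_eq_zero]
      exact_mod_cast (by omega : γ ≠ 0)
    set A1 := ε * (algebraMap k L (γ : k) * (π ^ (γ - 1) * D π)) with hA1
    set A2 := π ^ γ * D ε with hA2
    have hDx : D x = A2 + A1 := by
      rw [hxe, Derivation.leibniz, Derivation.leibniz_pow, hA1, hA2]
      simp only [smul_eq_mul, nsmul_eq_mul, map_natCast]
    have hA10 : A1 ≠ 0 := mul_ne_zero hε0 (mul_ne_zero hγ0 (mul_ne_zero (pow_ne_zero _ hπ0) hDπ.1))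
    have hA1o : o A1 = γ - 1 - m := by
      rw [hA1, hv.mul _ _ hε0 (mul_ne_zero hγ0 (mul_ne_zero (pow_ne_zero _ hπ0) hDπ.1)),
        hv.mul _ _ hγ0 (mul_ne_zero (pow_ne_zero _ hπ0) hDπ.1),
        hv.mul _ _ (pow_ne_zero _ hπ0) hDπ.1, hv.pow hπ0, hπ, hDπ.2, hεo,
        hv.alg _ (by exact_mod_cast (by omega : γ ≠ 0))]
      push_cast [Nat.cast_sub hγ]
      ring
    have hA2o : GG o (γ - m) A2 := by
      rw [hA2]
      have h1 := hv.GG_mul (m := γ) (n := -m) (x := π ^ γ) (y := D ε) (fun _ => by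
        rw [hv.pow hπ0, hπ, mul_one]) (hm ε hε0 hεo.ge)
      exact h1
    have hne : D x ≠ 0 := by
      intro h
      have h1 : A1 = - A2 := by
        rw [hDx] at h
        exact eq_neg_of_add_eq_zero_right h
      have h2 := (hv.GG_neg hA2o) (by rw [← h1]; exact hA10)
      rw [← h1, hA1o] at h2
      linarith
    refine ⟨hne, le_antisymm ?_ ?_⟩
    · by_contra hcon
      push Not at hcon
      have h1 : GG o (γ - m) (D x) := fun _ => by linarith
      have h2 : A1 = D x - A2 := by
        rw [hDx]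
        ring
      have h3 := (hv.GG_sub h1 hA2o) (by rw [← h2]; exact hA10)
      rw [← h2, hA1o] at h3
      linarith
    · have h1 : GG o (γ - 1 - m) (D x) := by
        rw [hDx]
        exact hv.GG_add (GG_mono hA2o (by linarith)) (fun _ => hA1o.ge)
      exact h1 hne
  have h1 := (hexact e x0 he hx0 ho).2
  rw [hDo] at h1
  intro x hx
  refine GG_mono (hfin x hx) ?_
  linarith

/-- The loss for elements of any order. -/
theorem tame' [CharZero k] (hv : Val k o) (D : Derivation k L L) (l : ℕ)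
    (h : ∀ x, GG o 0 x → GG o (-(l : ℤ)) (D x)) (x : L) (m : ℤ) (hx : GG o m x) :
    GG o (m - 1 - l) (D x) := by
  obtain ⟨π, hπ0, hπ⟩ := hv.unif
  have hπl : π ^ l ≠ 0 := pow_ne_zero _ hπ0
  have h1 := hv.deriv_le ((π ^ l) • D) (by
    intro y hy
    rw [Derivation.coe_smul, Pi.smul_apply, smul_eq_mul]
    refine GG_mono (hv.GG_mul (m := l) (fun _ => ?_) (h y hy)) (by linarith)
    rw [hv.pow hπ0, hπ, mul_one]) x m hx
  rw [Derivation.coe_smul, Pi.smul_apply, smul_eq_mul] at h1
  intro hD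
  have h2 := h1 (mul_ne_zero hπl hD)
  rw [hv.mul _ _ hπl hD, hv.pow hπ0, hπ] at h2
  linarith

end Pool.Agent.TH450.FH
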