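import Mathlib
import Pool.Agent.W277.UD.Res

/-!
# Charts with the trace property of tame extensions (helper450, after W277.UD.ChartN)
-/

set_option autoImplicit false
set_option maxHeartbeats 400000

namespace Pool.Agent.TH450.FH

open IsDedekindDomain HeightOneSpectrum Polynomial nonZeroDivisors
open Pool.Agent.W277.UB Pool.Agent.W277.UD

universe w

section Gen

variable {R F S K : Type*} [CommRing R] [IsDomain R] [IsPrincipalIdealRing R] [Field F]
  [Algebra R F] [IsFractionRing R F] [CommRing S] [IsDedekindDomain S] [Field K] [Algebra S K]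
  [IsFractionRing S K] [Algebra R S] [Module.Finite R S] [Module.IsTorsionFree R S] [Algebra F K]
  [Algebra R K] [IsScalarTower R F K] [IsScalarTower R S K] [FiniteDimensional F K]

lemma genP_mem (P : HeightOneSpectrum S) : algebraMap R S (genP R P) ∈ P.asIdeal := by
  have h2 := Ideal.relNorm_le_comap R P.asIdeal
  exact h2 (Submodule.IsPrincipal.generator_mem _)

lemma genP_coprime (r : R) (P : HeightOneSpectrum S) (h : algebraMap R S r ∉ P.asIdeal) :
    IsCoprime r (genP R P) := by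
  set p : Ideal R := P.asIdeal.comap (algebraMap R S) with hp
  haveI : P.asIdeal.IsPrime := P.isPrime
  haveI : p.IsPrime := Ideal.comap_isPrime _ _
  haveI : P.asIdeal.LiesOver p := ⟨rfl⟩
  obtain ⟨s, hs⟩ := Ideal.exists_relNorm_eq_pow_of_isPrime P.asIdeal p
  have hp0 : p ≠ ⊥ := by
    intro h0
    have h1 : genP R P ∈ p := genP_mem P
    rw [h0, Ideal.mem_bot] at h1
    exact genP_ne_zero P h1
  haveI : p.IsMaximal := IsPrime.to_maximal_ideal hp0
  have h1 : IsCoprime (Ideal.span {r}) p := by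
    rw [Ideal.isCoprime_iff_sup_eq]
    have h2 : p < Ideal.span {r} ⊔ p := by
      refine lt_of_le_of_ne le_sup_right ?_
      intro h3
      apply h
      have h4 : r ∈ Ideal.span {r} ⊔ p := Ideal.mem_sup_left (Ideal.mem_span_singleton_self r)
      rw [← h3] at h4
      exact h4
    exact (Ideal.IsMaximal.out (I := p)).2 _ h2
  have h2 : IsCoprime (Ideal.span {r}) (Ideal.span {genP R P}) := by
    have h3 : Ideal.span {genP R P} = p ^ s := by
      rw [← hs]
      exact Ideal.span_singleton_generator _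
    rw [h3]
    exact h1.pow_right
  exact (Ideal.isCoprime_span_singleton_iff r (genP R P)).1 h2

include K in
lemma finite_genP (r : R) (hr : r ≠ 0) :
    {P : HeightOneSpectrum S | ¬ IsCoprime r (genP R P)}.Finite := by
  have hr' : algebraMap R S r ≠ 0 := by
    rw [Ne, map_eq_zero_iff _ (FaithfulSMul.algebraMap_injective R S)]
    exact hr
  have hr2 : algebraMap S K (algebraMap R S r) ≠ 0 := by
    rwa [Ne, map_eq_zero_iff _ (IsFractionRing.injective S K)]
  refine (finite_ordP (S := S) (K := K) (algebraMap S K (algebraMap R S r)) hr2).subset ?_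
  intro P hP h0
  apply hP
  apply genP_coprime
  intro hmem
  have h1 := (le_ordP_alg_iff (K := K) P hr' 1).2 (by rwa [pow_one])
  rw [h0] at h1
  norm_num at h1

lemma exists_pole (P : HeightOneSpectrum S) (r : S) (hr : r ≠ 0) (e : ℕ) (he : 1 ≤ e)
    (h : ordP P (algebraMap S K r) = e) :
    ∃ y : K, y ≠ 0 ∧ ordP P y = -((e : ℤ) - 1) ∧ ∀ Q : HeightOneSpectrum S, Q ≠ P →
      0 ≤ ordP Q y := by
  classical
  have h1 : r ∈ P.asIdeal ^ e := (le_ordP_alg_iff (K := K) P hr e).1 h.ge
  obtain ⟨J, hJ⟩ : P.asIdeal ^ e ∣ Ideal.span {r} := by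
    rw [Ideal.dvd_span_singleton]
    exact h1
  have hPJ : ¬ P.asIdeal ∣ J := by
    rintro ⟨J', rfl⟩
    have h2 : r ∈ P.asIdeal ^ (e + 1) := by
      rw [← Ideal.dvd_span_singleton, hJ, ← mul_assoc, ← pow_succ]
      exact Dvd.intro _ rfl
    have h3 := (le_ordP_alg_iff (K := K) P hr (e + 1)).2 h2
    rw [h] at h3
    push_cast at h3
    linarith
  have hP0 : P.asIdeal ≠ 0 := P.ne_bot
  have h4 : ¬ (P.asIdeal * J ≤ P.asIdeal ^ 2) := by
    intro h5
    rw [← Ideal.dvd_iff_le, pow_two] at h5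
    exact hPJ ((mul_dvd_mul_iff_left hP0).1 h5)
  obtain ⟨a, ha1', ha2'⟩ := Set.not_subset.1 h4
  have ha1 : a ∈ P.asIdeal * J := ha1'
  have ha2 : a ∉ P.asIdeal ^ 2 := ha2'
  have haPJ : a ∈ P.asIdeal ⊓ J := (Ideal.mul_le_inf (I := P.asIdeal) (J := J)) ha1
  have haP : a ∈ P.asIdeal := haPJ.1
  have haJ : a ∈ J := haPJ.2
  clear ha1' ha2' h4
  have ha0 : a ≠ 0 := by
    rintro rfl
    exact ha2 (Ideal.zero_mem _)
  have ha0' : algebraMap S K a ≠ 0 := by
    rwa [Ne, map_eq_zero_iff _ (IsFractionRing.injective S K)]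
  have hr0' : algebraMap S K r ≠ 0 := by
    rwa [Ne, map_eq_zero_iff _ (IsFractionRing.injective S K)]
  have hy0 : algebraMap S K a / algebraMap S K r ≠ 0 := div_ne_zero ha0' hr0'
  have hy1 : ordP P (algebraMap S K a / algebraMap S K r) = -((e : ℤ) - 1) := by
    have h6 : ((1 : ℕ) : ℤ) ≤ ordP P (algebraMap S K a) := by
      rw [le_ordP_alg_iff (K := K) P ha0 1, pow_one]
      exact haP
    have h7 : ¬ (((2 : ℕ) : ℤ) ≤ ordP P (algebraMap S K a)) := by
      rw [le_ordP_alg_iff (K := K) P ha0 2]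
      exact ha2
    have h8 : ordP P (algebraMap S K a) = 1 := by
      push_cast at h6 h7
      omega
    rw [ordP_div P ha0' hr0', h, h8]
    ring
  have hy2 : ∀ Q : HeightOneSpectrum S, Q ≠ P →
      0 ≤ ordP Q (algebraMap S K a / algebraMap S K r) := by
    intro Q hQ
    rw [ordP_div Q ha0' hr0']
    have h5 := ordP_alg_nonneg (K := K) Q hr
    obtain ⟨n, hn⟩ := Int.eq_ofNat_of_zero_le h5
    have h6 : Q.asIdeal ^ n ∣ Ideal.span {r} := by
      rw [Ideal.dvd_span_singleton]
      exact (le_ordP_alg_iff (K := K) Q hr n).1 hn.ge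
    rw [hJ] at h6
    have hne : Q.asIdeal ≠ P.asIdeal := fun h8 => hQ (HeightOneSpectrum.ext h8)
    have h7 : IsCoprime (Q.asIdeal ^ n) (P.asIdeal ^ e) := by
      apply IsCoprime.pow
      rw [Ideal.isCoprime_iff_sup_eq]
      exact Ideal.IsMaximal.coprime_of_ne Q.isMaximal P.isMaximal hne
    have h8 : Q.asIdeal ^ n ∣ J := h7.dvd_of_dvd_mul_left h6
    have h9 : a ∈ Q.asIdeal ^ n := (Ideal.dvd_iff_le.1 h8) haJ
    have h10 := (le_ordP_alg_iff (K := K) Q ha0 n).2 h9
    rw [hn]
    linarith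
  exact ⟨algebraMap S K a / algebraMap S K r, hy0, hy1, hy2⟩

end Gen

end Pool.Agent.TH450.FH
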