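import Pool.Agent.TH450.FH.X2

/-!
# Charts with the trace property of tame extensions (helper450, after W277.UD.ChartN)
-/

set_option autoImplicit false
set_option maxHeartbeats 400000

namespace Pool.Agent.TH450.FH

open IsDedekindDomain HeightOneSpectrum Polynomial nonZeroDivisors
open Pool.Agent.W277.UB Pool.Agent.W277.UD

universe w

section Gen

variable {R F S K : Type*} [CommRing R] [IsDomain R] [IsPrincipalIdealRing R] [Field F]
  [Algebra R F] [IsFractionRing R F] [CommRing S] [IsDedekindDomain S] [Field K] [Algebra S K]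
  [IsFractionRing S K] [Algebra R S] [Module.Finite R S] [Module.IsTorsionFree R S] [Algebra F K]
  [Algebra R K] [IsScalarTower R F K] [IsScalarTower R S K] [FiniteDimensional F K]
  [IsIntegralClosure S R K] [Algebra.IsSeparable F K]

lemma exists_prime_below (P : HeightOneSpectrum S) :
    ∃ w : R, Prime w ∧ Ideal.span {w} = P.asIdeal.comap (algebraMap R S) ∧
      algebraMap R S w ∈ P.asIdeal := by
  set p : Ideal R := P.asIdeal.comap (algebraMap R S) with hp
  have hPp := P.isPrime
  have hpp : p.IsPrime := Ideal.comap_isPrime _ _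
  have hp0 : p ≠ ⊥ := by
    intro h0
    have h1 : genP R P ∈ p := genP_mem P
    rw [h0, Ideal.mem_bot] at h1
    exact genP_ne_zero P h1
  refine ⟨Submodule.IsPrincipal.generator p,
    Submodule.IsPrincipal.prime_generator_of_isPrime p hp0, Ideal.span_singleton_generator p, ?_⟩
  exact Submodule.IsPrincipal.generator_mem p

include F in
lemma diff_ord (P : HeightOneSpectrum S) (w : R) (hw : Prime w)
    (hspan : Ideal.span {w} = P.asIdeal.comap (algebraMap R S)) (x : S) (hx : x ≠ 0)
    (hxd : x ∈ differentIdeal R S) :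
    ordP P (algebraMap S K (algebraMap R S w)) - 1 ≤ ordP P (algebraMap S K x) := by
  set p : Ideal R := Ideal.span {w} with hp
  have hw0 : algebraMap R S w ≠ 0 := by
    rw [Ne, map_eq_zero_iff _ (FaithfulSMul.algebraMap_injective R S)]
    exact hw.ne_zero
  have hp0 : p ≠ ⊥ := by
    rw [hp, Ne, Ideal.span_singleton_eq_bot]
    exact hw.ne_zero
  have hpp : p.IsPrime := (Ideal.span_singleton_prime hw.ne_zero).2 hw
  have hpm : p.IsMaximal := IsPrime.to_maximal_ideal hp0
  obtain ⟨e, he⟩ := Int.eq_ofNat_of_zero_le (ordP_alg_nonneg (K := K) P hw0)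
  rw [he]
  rcases Nat.eq_zero_or_pos e with h0 | hpos
  · subst h0
    have := ordP_alg_nonneg (K := K) P hx
    push_cast
    linarith
  have hP : P.asIdeal ^ e ∣ p.map (algebraMap R S) := by
    rw [hp, Ideal.map_span, Set.image_singleton, Ideal.dvd_span_singleton]
    exact (le_ordP_alg_iff (K := K) P hw0 e).1 he.ge
  have h1 := pow_sub_one_dvd_differentIdeal_aux R F K P.asIdeal hpos.ne' hp0 hP
  have h2 : x ∈ P.asIdeal ^ (e - 1) := (Ideal.dvd_iff_le.1 h1) hxd
  have h3 := (le_ordP_alg_iff (K := K) P hx (e - 1)).2 h2
  have h4 : ((e - 1 : ℕ) : ℤ) = e - 1 := by omega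
  rw [h4] at h3
  exact h3

lemma trace_mem (y : K) (hy : ∀ (P : HeightOneSpectrum S) (w : R), Prime w →
    0 < ordP P (algebraMap S K (algebraMap R S w)) →
    GG (ordP P) (-(ordP P (algebraMap S K (algebraMap R S w)) - 1)) y) :
    ∃ r : R, algebraMap R F r = Algebra.trace F K y := by
  have hne : ((differentIdeal R S : Ideal S) : FractionalIdeal S⁰ K) ≠ 0 := by
    rw [coeIdeal_differentIdeal R F K]
    exact inv_ne_zero (FractionalIdeal.dual_ne_zero _ _ one_ne_zero)
  have h1 : y ∈ ((differentIdeal R S : Ideal S) : FractionalIdeal S⁰ K)⁻¹ := by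
    rw [FractionalIdeal.mem_inv_iff hne]
    intro x' hx'
    obtain ⟨x, hx, rfl⟩ := (FractionalIdeal.mem_coeIdeal _).1 hx'
    by_cases h0 : y * algebraMap S K x = 0
    · rw [h0]
      exact FractionalIdeal.zero_mem _
    · have hy0 : y ≠ 0 := left_ne_zero_of_mul h0
      have hx0' : algebraMap S K x ≠ 0 := right_ne_zero_of_mul h0
      have hx0 : x ≠ 0 := by
        rintro rfl
        exact hx0' (map_zero _)
      obtain ⟨s, hs⟩ := exists_of_ordP_nonneg (S := S) (y * algebraMap S K x) h0 (by
        intro P
        obtain ⟨w, hw, hspan, hwP⟩ := exists_prime_below (R := R) P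
        have hw0 : algebraMap R S w ≠ 0 := by
          rw [Ne, map_eq_zero_iff _ (FaithfulSMul.algebraMap_injective R S)]
          exact hw.ne_zero
        have h2 : ((1 : ℕ) : ℤ) ≤ ordP P (algebraMap S K (algebraMap R S w)) :=
          (le_ordP_alg_iff (K := K) P hw0 1).2 (by rwa [pow_one])
        have h3 := hy P w hw (by push_cast at h2; linarith) hy0
        have h4 := diff_ord (F := F) (K := K) P w hw hspan x hx0 hx
        rw [ordP_mul P hy0 hx0']
        linarith)
      rw [← hs]
      exact FractionalIdeal.coe_mem_one _ s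
  rw [coeIdeal_differentIdeal R F K, inv_inv] at h1
  have hone : (1 : FractionalIdeal S⁰ K) ≠ 0 := one_ne_zero
  have h2 := (FractionalIdeal.mem_dual hone).1 h1 1 (FractionalIdeal.one_mem_one _)
  rw [Algebra.traceForm_apply, mul_one] at h2
  obtain ⟨r, hr⟩ := h2
  exact ⟨r, hr⟩

end Gen

/-- Charts with four more properties. -/
structure ChartX (k R F K : Type*) [Field k] [CommRing R] [Field F] [Algebra R F] [Field K]
    [Algebra F K] [Algebra k K] (D : Derivation k K K) extends ChartN.{w} k R F K D where
  g_pos : ∀ v, 0 < ord v (algebraMap F K (algebraMap R F (g v)))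
  g_fin : ∀ r : R, r ≠ 0 → {v | ¬ IsCoprime r (g v)}.Finite
  pole : ∀ v (r : R), r ≠ 0 → ∀ e : ℕ, 1 ≤ e → ord v (algebraMap F K (algebraMap R F r)) = e →
    ∃ y : K, y ≠ 0 ∧ ord v y = -((e : ℤ) - 1) ∧ ∀ u, u ≠ v → 0 ≤ ord u y
  tr : ∀ y : K, (∀ v (w : R), Prime w → 0 < ord v (algebraMap F K (algebraMap R F w)) →
    GG (ord v) (-(ord v (algebraMap F K (algebraMap R F w)) - 1)) y) →
    ∃ r : R, algebraMap R F r = Algebra.trace F K y

/-- Existence of chart data. -/
lemma exists_chartX (k R F : Type*) (K : Type w) [Field k] [CharZero k] [CommRing R] [IsDomain R]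
    [IsPrincipalIdealRing R] [Field F] [Algebra R F] [IsFractionRing R F] [Field K] [Algebra F K]
    [FiniteDimensional F K] [Algebra.IsSeparable F K] [Algebra k K] (D : Derivation k K K)
    (hR : ∀ r : R, ∃ r' : R, algebraMap F K (algebraMap R F r') =
      D (algebraMap F K (algebraMap R F r)))
    (i : k →+* R) (hi : ∀ c, algebraMap F K (algebraMap R F (i c)) = algebraMap k K c)
    (hres : ∀ 𝔭 : Ideal R, 𝔭.IsPrime → 𝔭 ≠ ⊥ → ∀ r : R, ∃ q : k[X], q ≠ 0 ∧ q.eval₂ i r ∈ 𝔭) :
    Nonempty (ChartX.{w} k R F K D) := by
  letI : Algebra R K := ((algebraMap F K).comp (algebraMap R F)).toAlgebra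
  haveI : IsScalarTower R F K := IsScalarTower.of_algebraMap_eq' rfl
  let S := integralClosure R K
  haveI : IsFractionRing S K := IsIntegralClosure.isFractionRing_of_finite_extension R F K S
  haveI : IsDedekindDomain S := IsIntegralClosure.isDedekindDomain R F K S
  haveI : Module.Finite R S := IsIntegralClosure.finite R F K S
  have hinjRK : Function.Injective (algebraMap R K) :=
    (algebraMap F K).injective.comp (IsFractionRing.injective R F)
  have hinjRS : Function.Injective (algebraMap R S) := by
    intro a b hab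
    apply hinjRK
    rw [IsScalarTower.algebraMap_apply R S K, IsScalarTower.algebraMap_apply R S K, hab]
  haveI : FaithfulSMul R S := (faithfulSMul_iff_algebraMap_injective R S).mpr hinjRS
  haveI : Module.IsTorsionFree R S := inferInstance
  set d : Derivation ℤ K K := D.restrictScalars ℤ with hd
  have hdD : ∀ x, d x = D x := fun _ => rfl
  obtain ⟨δ, hδ0, hδ⟩ := exists_denom (S := S) (K := K) R d (by
    intro r
    obtain ⟨r', hr'⟩ := hR r
    refine ⟨algebraMap R S r', ?_⟩
    rw [← IsScalarTower.algebraMap_apply R S K]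
    exact hr')
  have hiS : ∀ c, algebraMap S K (algebraMap R S (i c)) = algebraMap k K c := by
    intro c
    rw [← IsScalarTower.algebraMap_apply R S K]
    exact hi c
  have hRSK : ∀ r : R, algebraMap F K (algebraMap R F r) = algebraMap S K (algebraMap R S r) := by
    intro r
    rw [← IsScalarTower.algebraMap_apply R S K]
    rfl
  exact ⟨{
    Pl := HeightOneSpectrum S
    ord := fun P x => ordP P x
    g := fun P => genP R P
    g_ne := fun P => genP_ne_zero P
    g_nu := fun P => genP_not_unit P
    val := by
      intro P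
      refine ⟨fun x y hx hy => ordP_mul P hx hy, fun x y m hx hy hxy h1 h2 =>
        ordP_add P m hx hy hxy h1 h2, ?_, ?_, ?_⟩
      · intro c hc
        have h1 := ordP_unit (K := K) P ((isUnit_iff_ne_zero.mpr hc).map
          ((algebraMap R S).comp i)).unit
        rw [IsUnit.unit_spec, RingHom.comp_apply, hiS] at h1
        exact h1
      · obtain ⟨π, hπ⟩ := P.valuation_exists_uniformizer K
        have hπ0 : π ≠ 0 := by
          rintro rfl
          rw [map_zero] at hπ
          exact WithZero.exp_ne_zero hπ.symm
        refine ⟨π, hπ0, ?_⟩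
        unfold ordP
        rw [hπ]
        simp
      · intro x hx hx0
        obtain ⟨s, hs⟩ := exists_int_approx P x hx hx0
        obtain ⟨p, hp⟩ := exists_sep_mod (K := K) i hiS hres P s
        exact ⟨algebraMap S K s, hs, p, hp⟩
    ord_R := by
      intro P r hr
      have h1 := ordP_alg_nonneg (K := K) P (s := algebraMap R S r) (by
        rwa [Ne, map_eq_zero_iff _ hinjRS])
      rw [← IsScalarTower.algebraMap_apply R S K] at h1
      exact h1
    fin := fun x hx => finite_ordP x hx
    norm := fun x hx T hT => norm_fact x hx T hT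
    integral := by
      intro x hx h n
      obtain ⟨s, hs⟩ := exists_of_ordP_nonneg (S := S) x hx h
      have h1 : IsIntegral R x := by
        rw [← hs]
        exact s.2
      have h2 := minpoly.isIntegrallyClosed_eq_field_fractions' F h1
      refine ⟨(minpoly R x).coeff n, ?_⟩
      rw [h2, Polynomial.coeff_map]
    dl := by
      intro P
      refine ⟨(ordP P (algebraMap S K δ)).toNat, fun x hx hx0 hD => ?_⟩
      have h1 := (ordP_D d δ hδ0 hδ P x hx hD).2 hx0
      rw [Int.toNat_of_nonneg (ordP_alg_nonneg P hδ0)]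
      exact h1
    g_pos := by
      intro P
      have h0 : algebraMap R S (genP R P) ≠ 0 := by
        rw [Ne, map_eq_zero_iff _ hinjRS]
        exact genP_ne_zero P
      have h1 : ((1 : ℕ) : ℤ) ≤ ordP P (algebraMap S K (algebraMap R S (genP R P))) :=
        (le_ordP_alg_iff (K := K) P h0 1).2 (by
          rw [pow_one]
          exact genP_mem P)
      show 0 < ordP P (algebraMap F K (algebraMap R F (genP R P)))
      rw [hRSK]
      push_cast at h1
      linarith
    g_fin := fun r hr => finite_genP (S := S) (K := K) r hr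
    pole := by
      intro P r hr e he h
      have h0 : algebraMap R S r ≠ 0 := by
        rw [Ne, map_eq_zero_iff _ hinjRS]
        exact hr
      rw [hRSK] at h
      exact exists_pole (K := K) P (algebraMap R S r) h0 e he h
    tr := by
      intro y hy
      apply trace_mem (R := R) (F := F) (S := S) y
      intro P w hw h
      have h2 := hy P w hw (by rw [hRSK]; exact h)
      rw [hRSK] at h2
      exact h2 }⟩

section Two

variable (k : Type*) (K : Type w) [Field k] [CharZero k] [Field K] [Algebra k K]
  [Algebra (RatFunc k) K] [IsScalarTower k (RatFunc k) K] [FiniteDimensional (RatFunc k) K]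

/-- The chart above the affine line. -/
theorem exists_chartX1 (D : Derivation k K K)
    (hD : ∀ x : RatFunc k, D (algebraMap (RatFunc k) K x) = algebraMap (RatFunc k) K (ratD k x)) :
    Nonempty (ChartX.{w} k k[X] (RatFunc k) K D) := by
  have : CharZero (RatFunc k) := charZero_of_injective_algebraMap
    (algebraMap k (RatFunc k)).injective
  refine exists_chartX k k[X] (RatFunc k) K D ?_ C ?_ (res_poly k)
  · intro r
    refine ⟨derivative r, ?_⟩
    rw [hD, ratD_alg]
  · intro c
    rw [RatFunc.algebraMap_C, IsScalarTower.algebraMap_apply k (RatFunc k) K]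
    rfl

/-- The chart at infinity. -/
theorem exists_chartX2 (D : Derivation k K K)
    (hD : ∀ x : RatFunc k, D (algebraMap (RatFunc k) K x) = algebraMap (RatFunc k) K (ratD k x)) :
    Nonempty (ChartX.{w} k (InfRing k) (RatFunc k) K D) := by
  have : CharZero (RatFunc k) := charZero_of_injective_algebraMap
    (algebraMap k (RatFunc k)).injective
  refine exists_chartX k (InfRing k) (RatFunc k) K D ?_ (infC k) ?_ (res_inf k)
  · intro r
    refine ⟨⟨_, ratD_inf k r⟩, ?_⟩
    rw [ValuationSubring.algebraMap_apply, ValuationSubring.algebraMap_apply, hD]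
  · intro c
    rw [ValuationSubring.algebraMap_apply, infC_coe,
      ← IsScalarTower.algebraMap_apply k (RatFunc k) K]

end Two

end Pool.Agent.TH450.FH
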