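import Pool.Agent.TH450.FH.X1
import Pool.Agent.TH450.FH.X3
import Pool.Agent.W277.UD.PlF

/-!
# Loss at the places of a function field, from the ramification (helper450)
-/

set_option autoImplicit false
set_option maxHeartbeats 400000

namespace Pool.Agent.TH450.FH

open Polynomial Pool.Agent.W277.UB Pool.Agent.W277.UD Finset

universe w

lemma GG_sum {k L : Type*} [Field k] [Field L] [Algebra k L] {o : L → ℤ} (hv : Val k o) (m : ℤ)
    {ι : Type*} (s : Finset ι) (f : ι → L) (h : ∀ i ∈ s, GG o m (f i)) : GG o m (∑ i ∈ s, f i) := by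
  classical
  induction s using Finset.induction_on with
  | empty => simpa using GG_zero
  | insert a s ha ih =>
    rw [Finset.sum_insert ha]
    exact hv.GG_add (h a (Finset.mem_insert_self _ _))
      (ih fun i hi => h i (Finset.mem_insert_of_mem hi))

/-- integral elements have no poles -/
lemma GG_of_integral {k L : Type*} [Field k] [Field L] [Algebra k L] {o : L → ℤ} (hv : Val k o)
    {R : Type*} [CommRing R] (φ : R →+* L) (hφ : ∀ r, GG o 0 (φ r)) (x : L)
    (hx : φ.IsIntegralElem x) : GG o 0 x := by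
  obtain ⟨p, hp, hp0⟩ := hx
  intro hx0
  by_contra hcon
  push Not at hcon
  set n := p.natDegree with hn
  have h1 : x ^ n = -∑ i ∈ range n, φ (p.coeff i) * x ^ i := by
    rw [Polynomial.eval₂_eq_sum_range, Finset.sum_range_succ, ← hn] at hp0
    have h2 : p.coeff n = 1 := hp
    rw [h2, map_one, one_mul] at hp0
    linear_combination hp0
  rcases Nat.eq_zero_or_pos n with h0 | hpos
  · rw [h0] at h1
    simp at h1
  have h3 : GG o (((n : ℤ) - 1) * o x) (∑ i ∈ range n, φ (p.coeff i) * x ^ i) := by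
    apply GG_sum hv
    intro i hi
    rw [Finset.mem_range] at hi
    have h4 : GG o (0 + i * o x) (φ (p.coeff i) * x ^ i) :=
      hv.GG_mul (hφ _) (fun _ => by rw [hv.pow hx0])
    refine GG_mono h4 ?_
    have h5 : (i : ℤ) ≤ n - 1 := by omega
    nlinarith
  have h4 := hv.GG_neg h3
  rw [← h1] at h4
  have h5 := h4 (pow_ne_zero _ hx0)
  rw [hv.pow hx0] at h5
  nlinarith

variable {k : Type*} {K : Type w} [Field k] [CharZero k] [Field K] [Algebra k K]
  [Algebra (RatFunc k) K] [IsScalarTower k (RatFunc k) K] [FiniteDimensional (RatFunc k) K]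
  {D : Derivation k K K}

/-- the prime below a place -/
lemma exists_prime_v (c1 : ChartX.{w} k k[X] (RatFunc k) K D) (v : c1.Pl) :
    ∃ w : k[X], Prime w ∧ 0 < c1.ord v (algebraMap (RatFunc k) K (algebraMap k[X] (RatFunc k) w)) := by
  have hinj : ∀ r : k[X], r ≠ 0 → algebraMap (RatFunc k) K (algebraMap k[X] (RatFunc k) r) ≠ 0 := by
    intro r hr
    rw [Ne, map_eq_zero_iff _ (algebraMap (RatFunc k) K).injective,
      map_eq_zero_iff _ (RatFunc.algebraMap_injective k)]
    exact hr
  have key : ∀ r : k[X], r ≠ 0 →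
      0 < c1.ord v (algebraMap (RatFunc k) K (algebraMap k[X] (RatFunc k) r)) →
      ∃ w : k[X], Prime w ∧
        0 < c1.ord v (algebraMap (RatFunc k) K (algebraMap k[X] (RatFunc k) w)) := by
    intro r
    induction r using UniqueFactorizationMonoid.induction_on_prime with
    | h₁ => intro h; exact absurd rfl h
    | h₂ u hu =>
      intro _ h
      exfalso
      obtain ⟨c, hc, rfl⟩ := Polynomial.isUnit_iff.1 hu
      have h1 : algebraMap (RatFunc k) K (algebraMap k[X] (RatFunc k) (C c)) = algebraMap k K c := by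
        rw [RatFunc.algebraMap_C, IsScalarTower.algebraMap_apply k (RatFunc k) K]
        rfl
      rw [h1, (c1.val v).alg c hc.ne_zero] at h
      exact lt_irrefl _ h
    | h₃ a p ha hp ih =>
      intro hpa h
      have ha0 : a ≠ 0 := right_ne_zero_of_mul hpa
      rw [map_mul, map_mul, (c1.val v).mul _ _ (hinj p hp.ne_zero) (hinj a ha0)] at h
      by_cases h1 : 0 < c1.ord v (algebraMap (RatFunc k) K (algebraMap k[X] (RatFunc k) p))
      · exact ⟨p, hp, h1⟩
      · exact ih ha0 (by linarith)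
  exact key (c1.g v) (c1.g_ne v) (c1.g_pos v)

lemma deriv_unit (c1 : ChartX.{w} k k[X] (RatFunc k) K D)
    (hD : ∀ x : RatFunc k, D (algebraMap (RatFunc k) K x) = algebraMap (RatFunc k) K (ratD k x))
    (v : c1.Pl) (w : k[X]) (hw : Prime w)
    (hv : 0 < c1.ord v (algebraMap (RatFunc k) K (algebraMap k[X] (RatFunc k) w))) :
    c1.ord v (D (algebraMap (RatFunc k) K (algebraMap k[X] (RatFunc k) w))) = 0 := by
  have hinj : ∀ r : k[X], r ≠ 0 → algebraMap (RatFunc k) K (algebraMap k[X] (RatFunc k) r) ≠ 0 := by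
    intro r hr
    rw [Ne, map_eq_zero_iff _ (algebraMap (RatFunc k) K).injective,
      map_eq_zero_iff _ (RatFunc.algebraMap_injective k)]
    exact hr
  rw [hD, ratD_alg]
  have hsep : w.Separable := hw.irreducible.separable
  have hd0 : derivative w ≠ 0 := by
    intro h
    have h1 : IsCoprime w (derivative w) := hsep
    rw [h, isCoprime_zero_right] at h1
    exact hw.not_unit h1
  have hge := c1.ord_R v (derivative w) hd0
  refine le_antisymm ?_ hge
  by_contra hcon
  push Not at hcon
  obtain ⟨a, b, hab⟩ : IsCoprime w (derivative w) := hsep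
  have hGG : ∀ r : k[X], GG (c1.ord v) 0 (algebraMap (RatFunc k) K (algebraMap k[X] (RatFunc k) r)) := by
    intro r h
    refine c1.ord_R v r ?_
    rintro rfl
    simp at h
  have h1 := congrArg (fun r => algebraMap (RatFunc k) K (algebraMap k[X] (RatFunc k) r)) hab
  simp only [map_add, map_mul, map_one] at h1
  have h2 : GG (c1.ord v) 1 (1 : K) := by
    rw [← h1]
    apply (c1.val v).GG_add
    · have := (c1.val v).GG_mul (hGG a) (n := 1) (fun _ => by linarith) (y :=
        algebraMap (RatFunc k) K (algebraMap k[X] (RatFunc k) w))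
      simpa using this
    · have := (c1.val v).GG_mul (hGG b) (n := 1) (fun _ => by linarith) (y :=
        algebraMap (RatFunc k) K (algebraMap k[X] (RatFunc k) (derivative w)))
      simpa using this
  have h3 := h2 one_ne_zero
  rw [(c1.val v).one] at h3
  norm_num at h3

/-- loss at the finite places -/
lemma fin_loss (c1 : ChartX.{w} k k[X] (RatFunc k) K D)
    (hD : ∀ x : RatFunc k, D (algebraMap (RatFunc k) K x) = algebraMap (RatFunc k) K (ratD k x))
    (v : c1.Pl) (w : k[X]) (hw : Prime w) (e : ℕ) (he : 1 ≤ e)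
    (hv : c1.ord v (algebraMap (RatFunc k) K (algebraMap k[X] (RatFunc k) w)) = e) :
    ∀ x, GG (c1.ord v) 0 x → GG (c1.ord v) (-((e : ℤ) - 1)) (D x) := by
  refine tame (c1.val v) D (c1.dl v) _ e he ?_ hv ?_
  · rw [Ne, map_eq_zero_iff _ (algebraMap (RatFunc k) K).injective,
      map_eq_zero_iff _ (RatFunc.algebraMap_injective k)]
    exact hw.ne_zero
  · refine deriv_unit c1 hD v w hw ?_
    rw [hv]
    exact_mod_cast he

omit [CharZero k] [FiniteDimensional (RatFunc k) K] in
/-- places at infinity -/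
lemma inf_pos (c2 : ChartX.{w} k (InfRing k) (RatFunc k) K D) (v : c2.Pl) :
    0 < c2.ord v (algebraMap (RatFunc k) K (algebraMap k[X] (RatFunc k) X))⁻¹ := by
  set T : RatFunc k := algebraMap k[X] (RatFunc k) X with hT
  have hT0 : T ≠ 0 := by
    rw [hT, Ne, map_eq_zero_iff _ (RatFunc.algebraMap_injective k)]
    exact X_ne_zero
  have hTd : T.intDegree = 1 := by
    rw [hT, RatFunc.intDegree_polynomial, natDegree_X]
    rfl
  set γ : RatFunc k := algebraMap (InfRing k) (RatFunc k) (c2.g v) with hγ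
  have hγ0 : γ ≠ 0 := by
    rw [hγ, Ne, map_eq_zero_iff _ (FaithfulSMul.algebraMap_injective (InfRing k) (RatFunc k))]
    exact c2.g_ne v
  obtain ⟨a, ha⟩ := Int.eq_ofNat_of_zero_le
    (zero_le_one.trans (pos_inf k (c2.g v) (c2.g_ne v) (c2.g_nu v)))
  have hdeg : γ.intDegree = -a := by
    rw [← hγ] at ha
    linarith
  set u : RatFunc k := γ * T ^ a with hu
  have hpow : ∀ n : ℕ, (T ^ n).intDegree = n := by
    intro n
    induction n with
    | zero => simp
    | succ n ih =>
      rw [pow_succ, RatFunc.intDegree_mul (pow_ne_zero _ hT0) hT0, ih, hTd]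
      push_cast
      ring
  have hu0 : u ≠ 0 := mul_ne_zero hγ0 (pow_ne_zero _ hT0)
  have hud : u.intDegree = 0 := by
    rw [hu, RatFunc.intDegree_mul hγ0 (pow_ne_zero _ hT0), hpow, hdeg]
    ring
  have hmem : ∀ x : RatFunc k, x ≠ 0 → x.intDegree ≤ 0 → 0 ≤ c2.ord v (algebraMap (RatFunc k) K x) := by
    intro x hx hxd
    have h1 : x ∈ InfRing k := (mem_infRing k).2 (Or.inr hxd)
    have h2 := c2.ord_R v ⟨x, h1⟩ (by
      intro h
      exact hx (congrArg Subtype.val h))
    exact h2
  have hK : ∀ x : RatFunc k, x ≠ 0 → algebraMap (RatFunc k) K x ≠ 0 := by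
    intro x hx
    rw [Ne, map_eq_zero_iff _ (algebraMap (RatFunc k) K).injective]
    exact hx
  have hou : c2.ord v (algebraMap (RatFunc k) K u) = 0 := by
    refine le_antisymm ?_ (hmem u hu0 hud.le)
    have h1 := hmem u⁻¹ (inv_ne_zero hu0) (by rw [RatFunc.intDegree_inv, hud, neg_zero])
    rw [map_inv₀, (c2.val v).inv (hK u hu0)] at h1
    linarith
  have h1 := c2.g_pos v
  rw [← hγ] at h1
  have h2 : γ = u * (T⁻¹) ^ a := by
    rw [hu, inv_pow, mul_assoc, mul_inv_cancel₀ (pow_ne_zero _ hT0), mul_one]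
  rw [h2, map_mul, map_pow, (c2.val v).mul _ _ (hK u hu0) (pow_ne_zero _ (hK _ (inv_ne_zero hT0))),
    hou, (c2.val v).pow (hK _ (inv_ne_zero hT0)), zero_add, map_inv₀] at h1
  by_contra hcon
  push Not at hcon
  have h3 : (a : ℤ) * c2.ord v (algebraMap (RatFunc k) K T)⁻¹ ≤ 0 :=
    mul_nonpos_of_nonneg_of_nonpos (Int.natCast_nonneg _) hcon
  linarith

/-- no loss at infinity -/
lemma inf_loss (c2 : ChartX.{w} k (InfRing k) (RatFunc k) K D)
    (hD : ∀ x : RatFunc k, D (algebraMap (RatFunc k) K x) = algebraMap (RatFunc k) K (ratD k x))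
    (v : c2.Pl) : ∀ x, GG (c2.ord v) 0 x → GG (c2.ord v) 0 (D x) := by
  have hpos := inf_pos c2 v
  set t : K := algebraMap (RatFunc k) K (algebraMap k[X] (RatFunc k) X) with ht
  have ht0 : t ≠ 0 := by
    rw [ht, Ne, map_eq_zero_iff _ (algebraMap (RatFunc k) K).injective,
      map_eq_zero_iff _ (RatFunc.algebraMap_injective k)]
    exact X_ne_zero
  have hDt : D t = 1 := by
    rw [ht, hD, ratD_alg, derivative_X, map_one, map_one]
  obtain ⟨e, he⟩ := Int.eq_ofNat_of_zero_le hpos.le
  have he1 : 1 ≤ e := by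
    rw [he] at hpos
    exact_mod_cast hpos
  set D1 : Derivation k K K := (-t ^ 2) • D with hD1
  have hD1t : D1 t⁻¹ = 1 := by
    rw [hD1, Derivation.coe_smul, Pi.smul_apply, Derivation.leibniz_inv, hDt]
    simp only [smul_eq_mul]
    field_simp
  have htame := tame (c2.val v) D1 (smul_dl (c2.val v) D (c2.dl v) (-t ^ 2)
    (neg_ne_zero.2 (pow_ne_zero _ ht0))) t⁻¹ e he1 (inv_ne_zero ht0) he (by
      rw [hD1t, (c2.val v).one])
  intro x hx
  have h1 := htame x hx
  have h2 : D x = (-(t⁻¹) ^ 2) * D1 x := by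
    rw [hD1, Derivation.coe_smul, Pi.smul_apply, smul_eq_mul]
    field_simp
  rw [h2]
  have h3 : GG (c2.ord v) (2 * e) (-(t⁻¹) ^ 2) := by
    intro _
    rw [(c2.val v).neg (pow_ne_zero _ (inv_ne_zero ht0)), (c2.val v).pow (inv_ne_zero ht0), he]
    push_cast
    linarith
  refine GG_mono ((c2.val v).GG_mul h3 h1) ?_
  have : (1 : ℤ) ≤ e := by exact_mod_cast he1
  linarith

end Pool.Agent.TH450.FH
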